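import Pool.Agent.W366.HT.Int3

/-!
# The logarithm of `c + 2 cos 2 π z`, with a parameter `c`
-/

set_option autoImplicit false

namespace Pool.Agent.Y967.CBY

open Filter Finset Topology Metric MeasureTheory
open Pool.Agent.W366.HT
open scoped Real

/-- the parameters -/
def CC : Set ℂ := {c | 99 / 50 ≤ c.re ∧ ‖c‖ ≤ 9}

/-- the domain -/
def DD : Set ℂ := ball (31 / 200) (33 / 200)

lemma mem_DD {z : ℂ} (hz : z ∈ DD) :
    -(1 / 100) < z.re ∧ z.re < 8 / 25 ∧ |z.im| < 33 / 200 ∧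
      (z.re - 31 / 200) ^ 2 + z.im ^ 2 < (33 / 200) ^ 2 := by
  unfold DD at hz
  rw [mem_ball, dist_eq_norm] at hz
  have h1 := (Complex.abs_re_le_norm (z - 31 / 200)).trans_lt hz
  have h2 := (Complex.abs_im_le_norm (z - 31 / 200)).trans_lt hz
  have e1 : (z - 31 / 200).re = z.re - 31 / 200 := by
    rw [Complex.sub_re]; norm_num
  have e2 : (z - 31 / 200).im = z.im := by
    rw [Complex.sub_im]; norm_num
  have h3 : ‖z - 31 / 200‖ ^ 2 < (33 / 200) ^ 2 :=
    pow_lt_pow_left₀ hz (norm_nonneg _) two_ne_zero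
  rw [← Complex.normSq_eq_norm_sq, Complex.normSq_apply, e1, e2] at h3
  rw [e1] at h1
  rw [e2] at h2
  rw [abs_lt] at h1
  exact ⟨by linarith [h1.1], by linarith [h1.2], h2, by nlinarith⟩

lemma real_mem_DD {x : ℝ} (h0 : 0 ≤ x) (h1 : x ≤ 319 / 1000) : (x : ℂ) ∈ DD := by
  unfold DD
  rw [mem_ball, dist_eq_norm]
  have e : (x : ℂ) - 31 / 200 = ((x - 31 / 200 : ℝ) : ℂ) := by push_cast; ring
  rw [e, Complex.norm_real, Real.norm_eq_abs, abs_lt]
  constructor <;> linarith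

lemma convex_DD : Convex ℝ DD := convex_ball _ _

lemma isOpen_DD : IsOpen DD := isOpen_ball

lemma cosh_le_sq {x : ℝ} (hx : |x| ≤ 1) : Real.cosh x ≤ 1 + x ^ 2 := by
  have h1 := Real.cosh_le_exp_half_sq x
  have h2 : x ^ 2 / 2 ≤ 1 / 2 := by
    have : x ^ 2 ≤ 1 := by
      rw [← sq_abs]
      nlinarith [abs_nonneg x]
    linarith
  have h3 : Real.exp (x ^ 2 / 2) ≤ 1 / (1 - x ^ 2 / 2) :=
    Real.exp_bound_div_one_sub_of_interval (by positivity) (by linarith)
  have h4 : 1 / (1 - x ^ 2 / 2) ≤ 1 + x ^ 2 := by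
    rw [div_le_iff₀ (by linarith)]
    nlinarith [sq_nonneg x]
  linarith

lemma cosh_le_three {x : ℝ} (hx : |x| ≤ 11 / 10) : Real.cosh x ≤ 3 := by
  have h1 := Real.cosh_le_exp_half_sq x
  have h2 : x ^ 2 / 2 ≤ 1 := by
    have : x ^ 2 ≤ (11 / 10) ^ 2 := by
      rw [← sq_abs]
      exact pow_le_pow_left₀ (abs_nonneg _) hx 2
    linarith
  have h3 : Real.exp (x ^ 2 / 2) ≤ Real.exp 1 := Real.exp_le_exp.2 h2
  have h4 := Real.exp_one_lt_d9
  linarith

/-- argument of the logarithm -/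
noncomputable def arc (c z : ℂ) : ℂ := c + 2 * Complex.cos (2 * π * z)

lemma arc_re {c z : ℂ} (hc : c ∈ CC) (hz : z ∈ DD) : 1 ≤ (arc c z).re := by
  obtain ⟨h1, h2, h3, h4⟩ := mem_DD hz
  have hpi := Real.pi_gt_three
  have hpi' := Real.pi_lt_d2
  have e : (arc c z).re = c.re +
      2 * (Real.cos (2 * π * z.re) * Real.cosh (2 * π * z.im)) := by
    unfold arc
    rw [Complex.add_re]
    have e2 : (2 * Complex.cos (2 * π * z)).re = 2 * (Complex.cos (2 * π * z)).re := by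
      rw [Complex.mul_re]; simp
    rw [e2, cos_re', (two_pi_re z).1, (two_pi_re z).2]
  rw [e]
  have a5 := hc.1
  have b3 := Real.one_le_cosh (2 * π * z.im)
  rcases le_total z.re (1 / 4) with h | h
  · have : 0 ≤ Real.cos (2 * π * z.re) := by
      apply Real.cos_nonneg_of_mem_Icc
      constructor <;> nlinarith
    have : 0 ≤ Real.cos (2 * π * z.re) * Real.cosh (2 * π * z.im) := by positivity
    linarith
  · obtain ⟨s, hs⟩ : ∃ s : ℝ, s = z.re - 1 / 4 := ⟨_, rfl⟩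
    have hs0 : 0 ≤ s := by linarith
    have hs1 : s ≤ 7 / 100 := by linarith
    have hv : z.im ^ 2 ≤ 91 / 5000 - 19 / 100 * s - s ^ 2 := by
      have e1 : z.re = s + 1 / 4 := by linarith
      rw [e1] at h4
      nlinarith
    have e3 : Real.cos (2 * π * z.re) = - Real.sin (2 * π * s) := by
      have : 2 * π * s = 2 * π * z.re - π / 2 := by rw [hs]; ring
      rw [this, Real.sin_sub_pi_div_two, neg_neg]
    have h5 : Real.sin (2 * π * s) ≤ 2 * π * s := Real.sin_le (by positivity)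
    have h5' : 0 ≤ Real.sin (2 * π * s) := by
      apply Real.sin_nonneg_of_nonneg_of_le_pi (by positivity)
      nlinarith
    have hv2 : z.im ^ 2 ≤ 91 / 5000 := by nlinarith
    have hpi2 : π ^ 2 ≤ 993 / 100 := by nlinarith
    have h6 : |2 * π * z.im| ≤ 1 := by
      rw [← sq_le_one_iff_abs_le_one]
      have : (2 * π * z.im) ^ 2 = 4 * π ^ 2 * z.im ^ 2 := by ring
      rw [this]
      nlinarith [sq_nonneg z.im]
    have h7 := cosh_le_sq h6
    have h8 : (2 * π * z.im) ^ 2 ≤ 993 / 25 * (91 / 5000 - 19 / 100 * s - s ^ 2) := by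
      have : (2 * π * z.im) ^ 2 = 4 * π ^ 2 * z.im ^ 2 := by ring
      rw [this]
      nlinarith [sq_nonneg z.im]
    have h9 : Real.cosh (2 * π * z.im) ≤ 1 + 993 / 25 * (91 / 5000 - 19 / 100 * s - s ^ 2) := by
      linarith
    have h10 : Real.sin (2 * π * s) * Real.cosh (2 * π * z.im) ≤
        (63 / 10 * s) * (1 + 993 / 25 * (91 / 5000 - 19 / 100 * s - s ^ 2)) := by
      have : Real.sin (2 * π * s) ≤ 63 / 10 * s := by nlinarith
      exact mul_le_mul this h9 (by linarith) (by positivity)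
    have h11 : (63 / 10 * s) * (1 + 993 / 25 * (91 / 5000 - 19 / 100 * s - s ^ 2)) ≤ 49 / 100 := by
      nlinarith [mul_nonneg (sq_nonneg (s - 7 / 100)) hs0, sq_nonneg (s - 7 / 100)]
    rw [e3]
    have h12 : -Real.sin (2 * π * s) * Real.cosh (2 * π * z.im) =
      -(Real.sin (2 * π * s) * Real.cosh (2 * π * z.im)) := by ring
    rw [h12]
    linarith

lemma two_pi_im_le {z : ℂ} (hz : z ∈ DD) : |2 * π * z.im| ≤ 11 / 10 := by
  obtain ⟨h1, h2, h3, h4⟩ := mem_DD hz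
  have hpi := Real.pi_gt_three
  have hpi' := Real.pi_lt_d2
  rw [abs_mul, abs_of_pos (by positivity)]
  nlinarith [abs_nonneg z.im]

lemma arc_norm {c z : ℂ} (hc : c ∈ CC) (hz : z ∈ DD) : ‖arc c z‖ ≤ 15 := by
  have b2 := cosh_le_three (two_pi_im_le hz)
  have c2 := norm_cos_le (2 * π * z)
  rw [(two_pi_re z).2] at c2
  have d1 := norm_add_le c (2 * Complex.cos (2 * π * z))
  rw [norm_mul, Complex.norm_two] at d1
  have := hc.2
  unfold arc
  linarith

lemma arc_slit {c z : ℂ} (hc : c ∈ CC) (hz : z ∈ DD) : arc c z ∈ Complex.slitPlane := by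
  rw [Complex.mem_slitPlane_iff]
  left
  linarith [arc_re hc hz]

lemma arc_ne {c z : ℂ} (hc : c ∈ CC) (hz : z ∈ DD) : arc c z ≠ 0 :=
  Complex.slitPlane_ne_zero (arc_slit hc hz)

/-- the logarithm -/
noncomputable def fC (c z : ℂ) : ℂ := Complex.log (arc c z)

lemma fC_norm {c z : ℂ} (hc : c ∈ CC) (hz : z ∈ DD) : ‖fC c z‖ ≤ 19 := by
  have := norm_log_le' (arc_re hc hz) (arc_norm hc hz)
  unfold fC
  linarith

lemma fC_deriv {c z : ℂ} (hc : c ∈ CC) (hz : z ∈ DD) :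
    HasDerivAt (fC c) (-(4 * π * Complex.sin (2 * π * z)) / arc c z) z := by
  unfold fC
  have h1 : HasDerivAt (arc c) (-(4 * π * Complex.sin (2 * π * z))) z := by
    unfold arc
    have h2 : HasDerivAt (fun z : ℂ => 2 * π * z) (2 * π : ℂ) z := by
      simpa using (hasDerivAt_id z).const_mul (2 * π : ℂ)
    have h3 := ((h2.ccos).const_mul (2 : ℂ)).const_add c
    refine h3.congr_deriv ?_
    ring
  exact h1.clog (arc_slit hc hz)

lemma fC_diff {c : ℂ} (hc : c ∈ CC) : DifferentiableOn ℂ (fC c) DD := fun _ hz =>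
  (fC_deriv hc hz).differentiableAt.differentiableWithinAt

lemma fC_lip {c z z' : ℂ} (hc : c ∈ CC) (hz : z ∈ DD) (hz' : z' ∈ DD) :
    ‖fC c z' - fC c z‖ ≤ 38 * ‖z' - z‖ := by
  refine Convex.norm_image_sub_le_of_norm_hasDerivWithin_le
    (f' := fun z => -(4 * π * Complex.sin (2 * π * z)) / arc c z)
    (fun x hx => (fC_deriv hc hx).hasDerivWithinAt) (fun x hx => ?_) convex_DD hz hz'
  have hpi := Real.pi_gt_three
  have hpi' := Real.pi_lt_d2
  have b2 := cosh_le_three (two_pi_im_le hx)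
  have c2 := norm_sin_le (2 * π * x)
  rw [(two_pi_re x).2] at c2
  have h4 : 1 ≤ ‖arc c x‖ := (arc_re hc hx).trans (Complex.re_le_norm _)
  rw [norm_div, norm_neg, norm_mul, norm_mul, Complex.norm_real, Real.norm_eq_abs,
    abs_of_pos Real.pi_pos, div_le_iff₀ (by linarith)]
  have e4 : ‖(4:ℂ)‖ = 4 := by simp
  rw [e4]
  have h5 : 4 * π * ‖Complex.sin (2 * π * x)‖ ≤ 38 := by
    have : ‖Complex.sin (2 * π * x)‖ ≤ 3 := c2.trans b2
    have h0 := norm_nonneg (Complex.sin (2 * π * x))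
    nlinarith
  linarith

/-- the logarithm is 1-Lipschitz on `re ≥ 1` -/
lemma log_lip {a b : ℂ} (ha : 1 ≤ a.re) (hb : 1 ≤ b.re) :
    ‖Complex.log a - Complex.log b‖ ≤ ‖a - b‖ := by
  have h := Convex.norm_image_sub_le_of_norm_hasDerivWithin_le (f := Complex.log)
    (f' := fun z => z⁻¹) (s := {z : ℂ | 1 ≤ z.re}) (C := 1)
    (fun x hx => (Complex.hasDerivAt_log (by
      rw [Complex.mem_slitPlane_iff]
      left
      have : (1:ℝ) ≤ x.re := hx
      linarith)).hasDerivWithinAt) (fun x hx => by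
      have h1 : (1:ℝ) ≤ x.re := hx
      have h2 : 1 ≤ ‖x‖ := h1.trans (Complex.re_le_norm x)
      rw [norm_inv]
      exact inv_le_one_of_one_le₀ h2) (convex_halfSpace_re_ge 1) hb ha
  simpa using h

lemma fC_lipc {c c' z : ℂ} (hc : c ∈ CC) (hc' : c' ∈ CC) (hz : z ∈ DD) :
    ‖fC c z - fC c' z‖ ≤ ‖c - c'‖ := by
  have h := log_lip (arc_re hc hz) (arc_re hc' hz)
  unfold fC
  refine h.trans (le_of_eq ?_)
  unfold arc
  congr 1
  ring

/-! ### The integral -/

/-- `∫_0^z log (c + 2 cos 2 π s) ds` -/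
noncomputable def HC (c z : ℂ) : ℂ := z * ∫ t in (0:ℝ)..1, fC c (z * t)

lemma rrF_eq (z ψ : ℂ) : W711.HT.rrF z ψ = HC (2 * Complex.cos ψ) z := by
  unfold W711.HT.rrF HC
  have e : ∀ t : ℝ, Complex.log (2 * Complex.cos ψ + 2 * Complex.cos (2 * π * z * t)) =
      fC (2 * Complex.cos ψ) (z * t) := by
    intro t
    unfold fC arc
    rw [mul_assoc (2 * (π : ℂ)) z]
  simp only [e]

lemma zero_mem_DD : (0 : ℂ) ∈ DD := by
  unfold DD
  rw [mem_ball, dist_eq_norm]
  norm_num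

lemma seg_mem {a b : ℂ} (ha : a ∈ DD) (hb : b ∈ DD) {t : ℝ} (h0 : 0 ≤ t) (h1 : t ≤ 1) :
    a + (b - a) * t ∈ DD := by
  have := convex_DD ha hb (sub_nonneg.2 h1) h0 (by ring)
  rw [Complex.real_smul, Complex.real_smul] at this
  have e : a + (b - a) * t = ((1 - t : ℝ) : ℂ) * a + (t : ℂ) * b := by push_cast; ring
  rw [e]
  exact this

lemma HC_prim {c : ℂ} (hc : c ∈ CC) : ∃ F : ℂ → ℂ, (∀ z ∈ DD, HasDerivAt F (fC c z) z) ∧
    ∀ z ∈ DD, HC c z = F z - F 0 := by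
  obtain ⟨F, hF⟩ := (fC_diff hc).isExactOn_ball
  refine ⟨F, hF, fun z hz => ?_⟩
  have h1 := seg_int convex_DD hF (fC_diff hc).continuousOn zero_mem_DD hz
  simp only [zero_add, sub_zero] at h1
  exact h1

lemma HC_deriv {c z : ℂ} (hc : c ∈ CC) (hz : z ∈ DD) : HasDerivAt (HC c) (fC c z) z := by
  obtain ⟨F, h1, h2⟩ := HC_prim hc
  refine ((h1 z hz).sub_const (F 0)).congr_of_eventuallyEq ?_
  filter_upwards [isOpen_DD.mem_nhds hz] with w hw
  exact h2 w hw

lemma HC_split {c δ w : ℂ} (hc : c ∈ CC) (hδ : δ ∈ DD) (hw : w ∈ DD) :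
    HC c δ = HC c w + (δ - w) * ∫ t in (0:ℝ)..1, fC c (w + (δ - w) * t) := by
  obtain ⟨F, h1, h2⟩ := HC_prim hc
  rw [h2 δ hδ, h2 w hw, seg_int convex_DD h1 (fC_diff hc).continuousOn hw hδ]
  ring

lemma HC_close {c δ w : ℂ} (hc : c ∈ CC) (hδ : δ ∈ DD) (hw : w ∈ DD) :
    ‖HC c δ - HC c w‖ ≤ 19 * ‖δ - w‖ := by
  rw [HC_split hc hδ hw, add_sub_cancel_left, norm_mul, mul_comm]
  refine mul_le_mul_of_nonneg_right ?_ (norm_nonneg _)
  have h := intervalIntegral.norm_integral_le_of_norm_le_const (a := (0:ℝ)) (b := 1) (C := 19)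
    (f := fun t : ℝ => fC c (w + (δ - w) * t)) (by
      intro t ht
      rw [Set.uIoc_of_le zero_le_one] at ht
      exact fC_norm hc (seg_mem hw hδ ht.1.le ht.2))
  simpa using h

lemma HC_lipc {c c' z : ℂ} (hc : c ∈ CC) (hc' : c' ∈ CC) (hz : z ∈ DD) :
    ‖HC c z - HC c' z‖ ≤ ‖c - c'‖ := by
  have hcont : ∀ d ∈ CC, IntervalIntegrable (fun t : ℝ => fC d (z * t)) volume 0 1 := by
    intro d hd
    refine ContinuousOn.intervalIntegrable ?_
    refine (fC_diff hd).continuousOn.comp (by fun_prop) ?_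
    intro t ht
    rw [Set.uIcc_of_le zero_le_one] at ht
    have := seg_mem zero_mem_DD hz ht.1 ht.2
    simpa using this
  unfold HC
  rw [← mul_sub, ← intervalIntegral.integral_sub (hcont c hc) (hcont c' hc'), norm_mul]
  have h := intervalIntegral.norm_integral_le_of_norm_le_const (a := (0:ℝ)) (b := 1) (C := ‖c - c'‖)
    (f := fun t : ℝ => fC c (z * t) - fC c' (z * t)) (by
      intro t ht
      rw [Set.uIoc_of_le zero_le_one] at ht
      refine fC_lipc hc hc' ?_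
      have := seg_mem zero_mem_DD hz ht.1.le ht.2
      simpa using this)
  rw [sub_zero, abs_one, mul_one] at h
  have hz1 : ‖z‖ ≤ 1 := by
    have h1 : z ∈ ball (31 / 200 : ℂ) (33 / 200) := hz
    rw [mem_ball, dist_eq_norm] at h1
    have h2 := norm_add_le (z - 31 / 200) (31 / 200)
    rw [sub_add_cancel] at h2
    have e4 : ‖(31 / 200 : ℂ)‖ = 31 / 200 := by norm_num
    rw [e4] at h2
    linarith
  calc ‖z‖ * ‖∫ t in (0:ℝ)..1, (fC c (z * t) - fC c' (z * t))‖ ≤ 1 * ‖c - c'‖ :=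
        mul_le_mul hz1 h (norm_nonneg _) zero_le_one
    _ = ‖c - c'‖ := one_mul _

lemma sumC {c : ℂ} (hc : c ∈ CC) {N m : ℕ} (hN : 0 < N) (hm : (m : ℝ) / N ≤ 319 / 1000) :
    ‖(∑ j ∈ range m, fC c (((2 * j + 1) / (2 * N) : ℝ) : ℂ)) / N - HC c ((m : ℂ) / N)‖ ≤
      13 / N := by
  have hN' : (0 : ℝ) < N := by exact_mod_cast hN
  have hD : ∀ x ∈ Set.Icc (0:ℝ) (319 / 1000), (x : ℂ) ∈ DD := by
    intro x hx
    exact real_mem_DD hx.1 hx.2
  have hc' : ContinuousOn (fun s : ℝ => fC c (s : ℂ)) (Set.Icc 0 (319 / 1000)) :=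
    (fC_diff hc).continuousOn.comp (by fun_prop) hD
  have h1 := riem (h := fun s : ℝ => fC c (s : ℂ)) (L := 38) (W := 319 / 1000) (by norm_num) hc'
    (fun x hx y hy => by
      have := fC_lip hc (hD y hy) (hD x hx)
      rwa [← Complex.ofReal_sub, Complex.norm_real, Real.norm_eq_abs] at this) hN m hm
  have e1 : HC c ((m : ℂ) / N) = ∫ s in (0:ℝ)..((m : ℝ) / N), fC c (s : ℂ) := by
    unfold HC
    have h2 := intervalIntegral.smul_integral_comp_mul_left (a := 0) (b := 1)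
      (f := fun s : ℝ => fC c (s : ℂ)) ((m : ℝ) / N)
    rw [mul_zero, mul_one, Complex.real_smul] at h2
    rw [← h2]
    push_cast
    rfl
  rw [e1]
  refine h1.trans ?_
  rw [div_le_div_iff_of_pos_right hN']
  linarith

end Pool.Agent.Y967.CBY
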