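import Pool.Agent.Y967.CBY.Bas2
import Pool.Agent.Y967.CBY.Bas

/-!
# Positivity of the value of the potential at `(0, 0, i y₀)`
-/

set_option autoImplicit false

namespace Pool.Agent.Y967.CBY

open Filter Finset Topology Metric MeasureTheory
open scoped Real
open Pool.Agent.W711.HT
open Pool.Agent.W366.HT (fB)

lemma two_mem_CC : (2 : ℂ) ∈ CC := by
  constructor
  · norm_num
  · norm_num

lemma fC_seg_int {c : ℂ} (hc : c ∈ CC) {z : ℂ} (hz : z ∈ DD) :
    IntervalIntegrable (fun t : ℝ => fC c (z * t)) volume 0 1 := by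
  refine ContinuousOn.intervalIntegrable ?_
  refine (fC_diff hc).continuousOn.comp (by fun_prop) ?_
  intro t ht
  rw [Set.uIcc_of_le zero_le_one] at ht
  have := seg_mem zero_mem_DD hz ht.1 ht.2
  simpa using this

lemma HC_re_nonneg {c : ℂ} (hc : c ∈ CC) {x : ℝ} (h0 : 0 ≤ x) (h1 : x ≤ 319 / 1000) :
    0 ≤ (HC c x).re := by
  unfold HC
  rw [Complex.re_ofReal_mul]
  refine mul_nonneg h0 ?_
  have hx := real_mem_DD h0 h1
  have h2 := intervalIntegral.intervalIntegral_re (fC_seg_int hc hx)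
  have h3 : (∫ t in (0:ℝ)..1, fC c (x * t)).re = ∫ t in (0:ℝ)..1, (fC c (x * t)).re := h2.symm
  rw [h3]
  refine intervalIntegral.integral_nonneg zero_le_one fun t ht => ?_
  unfold fC
  rw [Complex.log_re]
  refine Real.log_nonneg ?_
  have hm : (x : ℂ) * t ∈ DD := by
    have := seg_mem zero_mem_DD hx ht.1 ht.2
    simpa using this
  exact (arc_re hc hm).trans (Complex.re_le_norm _)

lemma HS_pos {δ : ℝ} (h0 : 3 / 16 ≤ δ) (h1 : δ ≤ 1 / 4) :
    δ * (Real.log 2 / 2) ≤ (HC 2 δ - ssF δ).re := by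
  have hpi := Real.pi_pos
  have hx := real_mem_DD (by linarith : 0 ≤ δ) (by linarith)
  have hB : (δ : ℂ) ∈ ball (1 / 4 : ℂ) (1 / 10) := by
    rw [mem_ball, dist_eq_norm]
    have e : (δ : ℂ) - 1 / 4 = ((δ - 1 / 4 : ℝ) : ℂ) := by push_cast; ring
    rw [e, Complex.norm_real, Real.norm_eq_abs, abs_lt]
    constructor <;> linarith
  have i1 := fC_seg_int two_mem_CC hx
  have i2 := fB_int' hB
  rw [ssF_self]
  unfold HC
  rw [← mul_sub, ← intervalIntegral.integral_sub i1 i2, Complex.re_ofReal_mul]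
  refine mul_le_mul_of_nonneg_left ?_ (by linarith)
  have h2 := intervalIntegral.intervalIntegral_re (i1.sub i2)
  have h3 : (∫ t in (0:ℝ)..1, (fC 2 (δ * t) - fB (δ * t))).re =
      ∫ t in (0:ℝ)..1, (fC 2 (δ * t) - fB (δ * t)).re := h2.symm
  rw [h3]
  have i3 : IntervalIntegrable (fun t : ℝ => (fC 2 (δ * t) - fB (δ * t)).re) volume 0 1 := by
    have h4 := i1.sub i2
    exact ⟨h4.1.re, h4.2.re⟩
  have h5 : ∫ t in (0:ℝ)..1, Real.log 2 / 2 = Real.log 2 / 2 := by simp
  rw [← h5]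
  refine intervalIntegral.integral_mono_on zero_le_one intervalIntegrable_const i3 fun t ht => ?_
  unfold fC fB arc
  rw [Complex.sub_re, Complex.log_re, Complex.log_re]
  have e1 : (2 : ℂ) + 2 * Complex.cos (2 * π * (δ * t)) =
      ((2 + 2 * Real.cos (2 * π * (δ * t)) : ℝ) : ℂ) := by push_cast; ring
  have e2 : (2 : ℂ) * Complex.sin (π * (δ * t)) = ((2 * Real.sin (π * (δ * t)) : ℝ) : ℂ) := by
    push_cast; ring
  rw [e1, e2, Complex.norm_real, Complex.norm_real]
  have hdt0 : 0 ≤ δ * t := mul_nonneg (by linarith) ht.1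
  have hdt1 : δ * t ≤ 1 / 4 := by
    have := mul_le_mul h1 ht.2 ht.1 (by norm_num)
    linarith
  have hc : 0 ≤ Real.cos (2 * π * (δ * t)) := by
    apply Real.cos_nonneg_of_mem_Icc
    constructor <;> nlinarith
  have ha : Real.log 2 ≤ Real.log ‖2 + 2 * Real.cos (2 * π * (δ * t))‖ := by
    refine Real.log_le_log (by norm_num) ?_
    rw [Real.norm_eq_abs]
    exact le_trans (by linarith) (le_abs_self _)
  have hb : Real.log ‖2 * Real.sin (π * (δ * t))‖ ≤ Real.log 2 / 2 := by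
    have e3 : (2 * Real.sin (π * (δ * t))) ^ 2 = 2 - 2 * Real.cos (2 * π * (δ * t)) := by
      have := Real.cos_two_mul (π * (δ * t))
      have h6 := Real.sin_sq_add_cos_sq (π * (δ * t))
      rw [show 2 * π * (δ * t) = 2 * (π * (δ * t)) by ring, this]
      nlinarith
    have h7 : Real.log ((2 * Real.sin (π * (δ * t))) ^ 2) ≤ Real.log 2 := by
      rcases eq_or_ne (2 * Real.sin (π * (δ * t))) 0 with h | h
      · rw [h]
        have := Real.log_nonneg (by norm_num : (1 : ℝ) ≤ 2)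
        simpa using this
      · refine Real.log_le_log (by positivity) ?_
        rw [e3]
        linarith
    rw [Real.log_pow] at h7
    rw [Real.norm_eq_abs, Real.log_abs]
    push_cast at h7
    linarith
  linarith

/-- the value is positive -/
theorem val_pos {δ y : ℝ} (h0 : 3 / 16 ≤ δ) (h1 : δ ≤ 1 / 4)
    (hc : 2 * Complex.cos (y * Complex.I) ∈ CC) :
    0 < (rrF δ 0 + rrF δ 0 + rrF (1 / 2 - δ) (y * Complex.I) - 2 * ssF δ).re := by
  have e1 : rrF (δ : ℂ) 0 = HC 2 δ := by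
    rw [rrF_eq, Complex.cos_zero, mul_one]
  have e2 : rrF (1 / 2 - (δ : ℂ)) (y * Complex.I) =
      HC (2 * Complex.cos (y * Complex.I)) ((1 / 2 - δ : ℝ) : ℂ) := by
    rw [rrF_eq]
    push_cast
    rfl
  rw [e1, e2]
  have h2 := HC_re_nonneg hc (x := 1 / 2 - δ) (by linarith) (by linarith)
  have h3 := HS_pos h0 h1
  have e3 : HC 2 (δ : ℂ) + HC 2 δ + HC (2 * Complex.cos (y * Complex.I)) ((1 / 2 - δ : ℝ) : ℂ) -
      2 * ssF δ = (HC 2 (δ : ℂ) - ssF δ) + (HC 2 (δ : ℂ) - ssF δ) +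
        HC (2 * Complex.cos (y * Complex.I)) ((1 / 2 - δ : ℝ) : ℂ) := by ring
  rw [e3, Complex.add_re, Complex.add_re]
  have h4 : 0 < δ * (Real.log 2 / 2) := by
    have := Real.log_pos (by norm_num : (1 : ℝ) < 2)
    have : 0 < δ := by linarith
    positivity
  linarith

end Pool.Agent.Y967.CBY
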