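import Pool.Agent.Y967.CBY.SeqY
import Pool.Agent.Y967.CBY.Pos
import Pool.Agent.Y472.E.Defs
import Pool.Agent.W711.HT.Final1

/-!
# CB3-E-MWKY: asymptotics of the kernel near `(0, 0, i y₀)`
-/

set_option autoImplicit false

namespace Pool.Agent.Y967.CBY

open Filter Finset Topology Metric
open scoped Real
open Pool.Agent.W711.HT
open Pool.Agent.W366.HT (fB)
open Pool.Agent.W469.HT.Mwk (norm_le_two)
open Pool.Agent.Y472 (Tg kh KBc SDY S_MWKY E0 dY Rd)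
open Pool.Agent.Y967.CB.MW (QQ3 D13 D23 hasDerivAt_D13)

theorem mwky : S_MWKY := by
  intro hKB y₀ ρ₀ c C s dl hy0 hy9 hSD
  obtain ⟨-, hFAR⟩ := hKB y₀ hy0 hy9
  have hLS : S_LAPSUM := Pool.Agent.W588.HT.lapsum0
  have hSEQ : S_SEQ := Pool.Agent.W583.HT.seq
  have hpi := Real.pi_gt_three
  have hρ₀ := hSD.hρ.1
  have hC := hSD.hC
  have h0mem : (0 : ℂ) ∈ Rc ρ₀ ρ₀ := by
    constructor <;> simpa using hρ₀
  have hymem : ((y₀ : ℂ) * Complex.I) ∈ Rd y₀ ρ₀ := by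
    show (y₀ : ℂ) * Complex.I - y₀ * Complex.I ∈ Rc ρ₀ ρ₀
    rw [sub_self]
    exact h0mem
  -- the centre
  obtain ⟨δ₀, hδdef⟩ : ∃ δ₀ : ℝ, δ₀ = dY y₀ := ⟨_, rfl⟩
  have hdl0 : dl 0 0 (y₀ * Complex.I) = (δ₀ : ℂ) := by rw [hδdef]; exact hSD.dl0
  have hδ1 : 3 / 16 ≤ δ₀ := by
    have h1 := (hSD.dclose 0 h0mem 0 h0mem _ hymem).1
    rw [hdl0] at h1
    have e : (δ₀ : ℂ) - 1 / 4 = ((δ₀ - 1 / 4 : ℝ) : ℂ) := by push_cast; ring
    rw [e, Complex.norm_real, Real.norm_eq_abs, abs_le] at h1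
    linarith [h1.1]
  have hδ2 : δ₀ ≤ 1 / 4 := by
    have h1 : Real.arccos ((Real.cosh y₀ - 1) / (3 + Real.cosh y₀)) ≤ π / 2 := by
      rw [Real.arccos_le_pi_div_two]
      have := Real.one_le_cosh y₀
      exact div_nonneg (by linarith) (by linarith)
    rw [hδdef]
    unfold dY
    rw [div_le_iff₀ (by positivity)]
    linarith
  -- the value at the centre
  have hcy : 2 * Complex.cos (y₀ * Complex.I) ∈ CC := by
    refine cos_mem ?_ ?_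
    · simp
    · have : ((y₀ : ℂ) * Complex.I).im = y₀ := by simp
      rw [this, abs_of_pos hy0]
      linarith
  have hE0 : 0 < E0 y₀ := by
    have h1 := hSD.scrit 0 h0mem 0 h0mem _ hymem
    rw [hSD.zero, hdl0] at h1
    have h2 := val_pos hδ1 hδ2 hcy
    rw [← h1, Complex.ofReal_re] at h2
    exact h2
  obtain ⟨ρ', hρ'0, hρ'1, r, sn, τg, hr0, hs0, hg0, hE', hU0⟩ :=
    intY Pool.Agent.W176.HTN.newt hδ1 hδ2 hy0 hy9
  obtain ⟨A, Rn, hA, hRn, hnear⟩ := near3Y y₀ (by linarith : 1 / 8 ≤ δ₀) hδ2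
  obtain ⟨ρ, hρdef⟩ : ∃ ρ : ℝ, ρ = min ρ' Rn := ⟨_, rfl⟩
  have hρ : 0 < ρ := by rw [hρdef]; exact lt_min hρ'0 hRn
  have hρi : ρ ≤ ρ' := by rw [hρdef]; exact min_le_left _ _
  have hρn : ρ ≤ Rn := by rw [hρdef]; exact min_le_right _ _
  have hρ2 : ρ < 1 / 200 := by linarith
  have hbi : ball (δ₀ : ℂ) ρ ⊆ ball (δ₀ : ℂ) ρ' := ball_subset_ball hρi
  have hr : ∀ᶠ N : ℕ in atTop, ∀ c, DifferentiableOn ℂ (r N c) (ball (δ₀ : ℂ) ρ) := by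
    filter_upwards [hr0] with N h c
    exact (h c).mono hbi
  have hs : ∀ᶠ N : ℕ in atTop, DifferentiableOn ℂ (sn N) (ball (δ₀ : ℂ) ρ) := by
    filter_upwards [hs0] with N h
    exact h.mono hbi
  have hg : ∀ᶠ N : ℕ in atTop, ∀ χ, DifferentiableOn ℂ (τg N χ) (ball (δ₀ : ℂ) ρ) := by
    filter_upwards [hg0] with N h χ
    exact (h χ).mono hbi
  have hE : ∀ᶠ N : ℕ in atTop, ∀ d : ℕ, |(d : ℝ) / N - δ₀| < ρ →
      (∀ (ψ : ℂ) (h : 2 * Complex.cos ψ ∈ CC),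
        Rp N d ψ = Complex.exp (N * r N ⟨2 * Complex.cos ψ, h⟩ ((d : ℂ) / N))) ∧
      (Sd N d : ℂ) = Complex.exp (N * sn N ((d : ℂ) / N)) ∧
      ∀ χ : {χ : ℂ // χ ∈ XX y₀}, Tg N d χ.1 = Complex.exp (N * τg N χ ((d : ℂ) / N)) := by
    filter_upwards [hE'] with N h d hd
    exact h d (hd.trans_le hρi)
  have hU : ∀ ε : ℝ, 0 < ε → ∀ᶠ N : ℕ in atTop, ∀ z ∈ ball (δ₀ : ℂ) ρ,
      (∀ c, ‖r N c z - HC c.1 z‖ ≤ ε) ∧ ‖sn N z - ssF z‖ ≤ ε ∧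
      ∀ χ, ‖τg N χ z - HC (2 * Complex.cos χ.1) (1 / 2 - z)‖ ≤ ε := by
    intro ε hε
    filter_upwards [hU0 ε hε] with N h z hz
    exact h z (hbi hz)
  obtain ⟨R, hRdef⟩ : ∃ R : ℝ, R = ρ / 2 := ⟨_, rfl⟩
  have hR : 0 < R := by rw [hRdef]; positivity
  have hρR : R < ρ := by rw [hRdef]; linarith
  obtain ⟨w, hwdef⟩ : ∃ w : ℝ, w = min (min (R / 2) (1 / 16)) (4 / A) := ⟨_, rfl⟩
  have hw : 0 < w := by
    rw [hwdef]; exact lt_min (lt_min (by positivity) (by norm_num)) (by positivity)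
  have hwR : w ≤ R / 2 := by rw [hwdef]; exact (min_le_left _ _).trans (min_le_left _ _)
  have hw16 : w ≤ 1 / 16 := by rw [hwdef]; exact (min_le_left _ _).trans (min_le_right _ _)
  have hwA : A * w ≤ 4 := by
    have : w ≤ 4 / A := by rw [hwdef]; exact min_le_right _ _
    rw [le_div_iff₀ hA] at this
    linarith
  clear hwdef
  obtain ⟨κ₀, hκ₀, τ, hτ, hF₀⟩ := hFAR (w / 2) (by positivity)
  obtain ⟨κ, hκdef⟩ : ∃ κ : ℝ, κ = min κ₀ (E0 y₀) := ⟨_, rfl⟩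
  have hκ : 0 < κ := by rw [hκdef]; exact lt_min hκ₀ hE0
  have hκE : κ ≤ E0 y₀ := by rw [hκdef]; exact min_le_right _ _
  have hκκ : κ ≤ κ₀ := by rw [hκdef]; exact min_le_left _ _
  have hF : ∀ᶠ N : ℕ in atTop, ∀ d ≤ (N - 1) / 2, w / 2 ≤ |(d : ℝ) / N - δ₀| →
      ∀ ψ ψ' χ : ℂ, |ψ.re| ≤ π → |ψ.im| ≤ τ → |ψ'.re| ≤ π → |ψ'.im| ≤ τ → |χ.re| ≤ π →
      |χ.im - y₀| ≤ τ → ‖Rp N d ψ * Rp N d ψ' * Tg N d χ / (Sd N d : ℂ) ^ 2‖ ≤
        Real.exp (N * (E0 y₀ - κ)) := by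
    filter_upwards [hF₀] with N h d hd hd2 ψ ψ' χ a1 a2 a3 a4 a5 a6
    rw [hδdef] at hd2
    refine (h d hd hd2 ψ ψ' χ a1 a2 a3 a4 a5 a6).trans (Real.exp_le_exp.2 ?_)
    exact mul_le_mul_of_nonneg_left (by linarith) (Nat.cast_nonneg N)
  -- continuity of `s`
  have hcont : ContinuousWithinAt (fun p : ℂ × ℂ × ℂ => s p.1 p.2.1 p.2.2)
      (Rc ρ₀ ρ₀ ×ˢ Rc ρ₀ ρ₀ ×ˢ Rd y₀ ρ₀) (0, 0, (y₀ : ℂ) * Complex.I) :=
    hSD.san.continuousOn _ ⟨h0mem, h0mem, hymem⟩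
  obtain ⟨t₀, ht₀, hlow0⟩ := Metric.continuousWithinAt_iff.1 hcont (κ / 2) (by positivity)
  obtain ⟨t, htdef⟩ : ∃ t : ℝ, t = min (min (min (ρ₀ / 2) τ) (min (1 / 400) (Rn / 4)))
    (min (w / (200 * C)) (t₀ / 4)) := ⟨_, rfl⟩
  have ht : 0 < t := by
    rw [htdef]
    refine lt_min (lt_min (lt_min (by positivity) hτ) (lt_min (by norm_num) (by positivity)))
      (lt_min (by positivity) (by positivity))
  have ht1 : t ≤ ρ₀ / 2 := by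
    rw [htdef]
    exact (min_le_left _ _).trans ((min_le_left _ _).trans (min_le_left _ _))
  have ht2 : t ≤ τ := by
    rw [htdef]
    exact (min_le_left _ _).trans ((min_le_left _ _).trans (min_le_right _ _))
  have ht3 : t ≤ 1 / 400 := by
    rw [htdef]
    exact (min_le_left _ _).trans ((min_le_right _ _).trans (min_le_left _ _))
  have ht4 : t ≤ Rn / 4 := by
    rw [htdef]
    exact (min_le_left _ _).trans ((min_le_right _ _).trans (min_le_right _ _))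
  have ht5 : t ≤ w / (200 * C) := by
    rw [htdef]
    exact (min_le_right _ _).trans (min_le_left _ _)
  have ht6 : t ≤ t₀ / 4 := by
    rw [htdef]
    exact (min_le_right _ _).trans (min_le_right _ _)
  clear htdef
  -- the compact set
  obtain ⟨K1, hK1def⟩ : ∃ K1 : Set ℂ, K1 = Set.Icc (-t) t ×ℂ Set.Icc (-t) t := ⟨_, rfl⟩
  have hK1mem : ∀ z : ℂ, z ∈ K1 ↔ |z.re| ≤ t ∧ |z.im| ≤ t := by
    intro z
    rw [hK1def, Complex.mem_reProdIm, Set.mem_Icc, Set.mem_Icc, abs_le, abs_le]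
  have hK1c : IsCompact K1 := by
    rw [hK1def]
    exact isCompact_Icc.reProdIm isCompact_Icc
  obtain ⟨K2, hK2def⟩ : ∃ K2 : Set ℂ, K2 = (fun z : ℂ => z + (y₀ : ℂ) * Complex.I) '' K1 :=
    ⟨_, rfl⟩
  have hK2mem : ∀ z : ℂ, z ∈ K2 ↔ |(z - y₀ * Complex.I).re| ≤ t ∧ |(z - y₀ * Complex.I).im| ≤ t := by
    intro z
    rw [hK2def, ← hK1mem]
    constructor
    · rintro ⟨v, hv, rfl⟩
      simpa using hv
    · intro hv
      exact ⟨_, hv, by simp⟩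
  have hK2c : IsCompact K2 := by
    rw [hK2def]
    exact hK1c.image (by fun_prop)
  obtain ⟨K, hKdef⟩ : ∃ K : Set (ℂ × ℂ × ℂ), K = K1 ×ˢ K1 ×ˢ K2 := ⟨_, rfl⟩
  have hKmem : ∀ p : ℂ × ℂ × ℂ, p ∈ K ↔
      (|p.1.re| ≤ t ∧ |p.1.im| ≤ t) ∧ (|p.2.1.re| ≤ t ∧ |p.2.1.im| ≤ t) ∧
        (|(p.2.2 - y₀ * Complex.I).re| ≤ t ∧ |(p.2.2 - y₀ * Complex.I).im| ≤ t) := by
    intro p
    rw [hKdef, Set.mem_prod, Set.mem_prod, hK1mem, hK1mem, hK2mem]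
  have hKc : IsCompact K := by
    rw [hKdef]
    exact hK1c.prod (hK1c.prod hK2c)
  have hKRc : ∀ z : ℂ, |z.re| ≤ t → |z.im| ≤ t → z ∈ Rc ρ₀ ρ₀ := by
    intro z h1 h2
    exact ⟨by linarith, by linarith⟩
  have hKXX : ∀ z : ℂ, |(z - y₀ * Complex.I).re| ≤ t → |(z - y₀ * Complex.I).im| ≤ t →
      z ∈ XX y₀ := by
    intro z h1 h2
    unfold XX
    rw [mem_ball, dist_eq_norm]
    have := norm_le_two h1 h2
    linarith
  have hKCC : ∀ z : ℂ, |z.re| ≤ t → |z.im| ≤ t → 2 * Complex.cos z ∈ CC := by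
    intro z h1 h2
    exact cos_mem (by linarith) (by linarith)
  have hre : ∀ z : ℂ, (z - y₀ * Complex.I).re = z.re := by intro z; simp
  have him : ∀ z : ℂ, (z - y₀ * Complex.I).im = z.im - y₀ := by intro z; simp
  have htt : t ^ 2 ≤ t := by nlinarith
  have hdl : ∀ p ∈ K, ‖dl p.1 p.2.1 p.2.2 - δ₀‖ ≤ w / 20 := by
    intro p hp
    obtain ⟨⟨h1, h2⟩, ⟨h3, h4⟩, h3', h4'⟩ := (hKmem p).1 hp
    have h := (hSD.dclose _ (hKRc _ h1 h2) _ (hKRc _ h3 h4) _ (hKRc _ h3' h4')).2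
    rw [← hδdef] at h
    refine h.trans ?_
    have h5 := norm_le_two h1 h2
    have h6 := norm_le_two h3 h4
    have h6' := norm_le_two h3' h4'
    have h8 : C * t ≤ w / 200 := by
      rw [le_div_iff₀ (by positivity)] at ht5
      linarith
    calc C * (‖p.1‖ ^ 2 + ‖p.2.1‖ ^ 2 + ‖p.2.2 - y₀ * Complex.I‖) ≤
          C * ((2 * t) ^ 2 + (2 * t) ^ 2 + 2 * t) := by gcongr
      _ = 8 * C * t ^ 2 + 2 * C * t := by ring
      _ ≤ 8 * C * t + 2 * C * t := by gcongr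
      _ ≤ w / 20 := by linarith
  have hlow : ∀ p ∈ K, E0 y₀ - κ / 2 ≤ (s p.1 p.2.1 p.2.2).re := by
    intro p hp
    obtain ⟨⟨h1, h2⟩, ⟨h3, h4⟩, h3', h4'⟩ := (hKmem p).1 hp
    have h5 := norm_le_two h1 h2
    have h6 := norm_le_two h3 h4
    have h6' := norm_le_two h3' h4'
    have hd : dist p (0, 0, (y₀ : ℂ) * Complex.I) < t₀ := by
      rw [Prod.dist_eq, Prod.dist_eq]
      simp only
      rw [dist_zero_right, dist_zero_right, dist_eq_norm]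
      refine max_lt (by linarith) (max_lt (by linarith) (by linarith))
    have h7 := hlow0 (x := p) ⟨hKRc _ h1 h2, hKRc _ h3 h4, hKRc _ h3' h4'⟩ hd
    simp only at h7
    rw [hSD.zero, dist_eq_norm] at h7
    have h8 := (Complex.abs_re_le_norm _).trans_lt h7
    rw [Complex.sub_re, Complex.ofReal_re, abs_lt] at h8
    linarith [h8.1]
  have hcrit : ∀ p ∈ K, s p.1 p.2.1 p.2.2 = QQ3 p.1 p.2.1 p.2.2 (dl p.1 p.2.1 p.2.2) ∧
      D13 p.1 p.2.1 p.2.2 (dl p.1 p.2.1 p.2.2) = 0 := by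
    intro p hp
    obtain ⟨⟨h1, h2⟩, ⟨h3, h4⟩, h3', h4'⟩ := (hKmem p).1 hp
    refine ⟨hSD.scrit _ (hKRc _ h1 h2) _ (hKRc _ h3 h4) _ (hKRc _ h3' h4'), ?_⟩
    have h5 := hSD.dcrit _ (hKRc _ h1 h2) _ (hKRc _ h3 h4) _ (hKRc _ h3' h4')
    unfold D13
    linear_combination h5
  have hQ2 : ∀ p ∈ K, ∀ z ∈ ball (δ₀ : ℂ) ρ,
      HasDerivAt (D13 p.1 p.2.1 p.2.2) (D23 (z, p.1, p.2.1, p.2.2)) z ∧
      ‖D23 (z, p.1, p.2.1, p.2.2) + A‖ ≤ A / 20 := by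
    intro p hp z hz
    obtain ⟨⟨h1, h2⟩, ⟨h3, h4⟩, h3', h4'⟩ := (hKmem p).1 hp
    have h5 := norm_le_two h1 h2
    have h6 := norm_le_two h3 h4
    have h6' := norm_le_two h3' h4'
    rw [mem_ball, dist_eq_norm] at hz
    obtain ⟨g1, g2, g2', g3, g4⟩ := hnear z p.1 p.2.1 p.2.2 (hz.trans_le hρn) (by linarith)
      (by linarith) (by linarith)
    exact ⟨hasDerivAt_D13 g1 g2 g2' g3, g4⟩
  have hΦ : ContinuousOn (fun p : ℂ × ℂ × ℂ => (s p.1 p.2.1 p.2.2).re) K := by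
    refine Complex.continuous_re.comp_continuousOn (hSD.san.continuousOn.mono ?_)
    intro p hp
    obtain ⟨⟨h1, h2⟩, ⟨h3, h4⟩, h3', h4'⟩ := (hKmem p).1 hp
    exact ⟨hKRc _ h1 h2, hKRc _ h3 h4, hKRc _ h3' h4'⟩
  have hmain := hSEQ (ℂ × ℂ × ℂ) K hKc
    (fun N p => Real.log ‖kh N p.1 p.2.1 p.2.2‖ / N) (fun p => (s p.1 p.2.1 p.2.2).re) hΦ (by
    intro p p₀ hp₀ hp htp
    have htp1 : Tendsto (fun N => (p N).1) atTop (𝓝 p₀.1) :=
      (continuous_fst.tendsto p₀).comp htp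
    have htp2 : Tendsto (fun N => (p N).2.1) atTop (𝓝 p₀.2.1) :=
      ((continuous_fst.comp continuous_snd).tendsto p₀).comp htp
    have htp3 : Tendsto (fun N => (p N).2.2) atTop (𝓝 p₀.2.2) :=
      ((continuous_snd.comp continuous_snd).tendsto p₀).comp htp
    have k0 := (hKmem p₀).1 hp₀
    have hsQ := (hcrit p₀ hp₀).1
    have hlo := hlow p₀ hp₀
    rw [hsQ] at hlo
    have := seqY (E := E0 y₀) (τ := τ) hδ1 hδ2 hρ2 hy0 hy9 hLS hA hρR hw hwR hw16 hwA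
      hr hs hg hE hU hκ hF
      (ψ := fun N => (p N).1) (ψ' := fun N => (p N).2.1) (χ := fun N => (p N).2.2)
      (φ := p₀.1) (φ' := p₀.2.1) (η := p₀.2.2)
      (z₀ := dl p₀.1 p₀.2.1 p₀.2.2)
      (fun N => hKCC _ ((hKmem _).1 (hp N)).1.1 ((hKmem _).1 (hp N)).1.2)
      (fun N => hKCC _ ((hKmem _).1 (hp N)).2.1.1 ((hKmem _).1 (hp N)).2.1.2)
      (fun N => hKXX _ ((hKmem _).1 (hp N)).2.2.1 ((hKmem _).1 (hp N)).2.2.2)
      (hKCC _ k0.1.1 k0.1.2) (hKCC _ k0.2.1.1 k0.2.1.2) (hKXX _ k0.2.2.1 k0.2.2.2)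
      (hQ2 p₀ hp₀)
      (fun N => ⟨((hKmem _).1 (hp N)).1.1.trans (by linarith),
        ((hKmem _).1 (hp N)).1.2.trans ht2⟩)
      (fun N => ⟨((hKmem _).1 (hp N)).2.1.1.trans (by linarith),
        ((hKmem _).1 (hp N)).2.1.2.trans ht2⟩)
      (fun N => by
        have k1 := ((hKmem _).1 (hp N)).2.2
        rw [hre, him] at k1
        exact ⟨k1.1.trans (by linarith), k1.2.trans ht2⟩)
      htp1 htp2 htp3 (hdl p₀ hp₀) (hcrit p₀ hp₀).2 (by linarith) (by linarith)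
    rw [hsQ]
    exact this)
  refine ⟨t, ht, by linarith, fun ε hε => ?_⟩
  have hmin : 0 < min ε (κ / 4) := lt_min hε (by positivity)
  filter_upwards [hmain _ hmin, eventually_gt_atTop 0] with N h1 h2 ψ hψ ψ' hψ' χ hχ
  have hN : (0 : ℝ) < N := by exact_mod_cast h2
  have hpK : (ψ, ψ', χ) ∈ K := (hKmem _).2 ⟨⟨hψ.1.le, hψ.2.le⟩, ⟨hψ'.1.le, hψ'.2.le⟩,
    hχ.1.le, hχ.2.le⟩
  have h3 := h1 _ hpK
  have h4 := hlow _ hpK
  simp only at h3 h4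
  constructor
  · intro hker
    rw [hker, norm_zero, Real.log_zero, zero_div, zero_sub, abs_neg] at h3
    have h5 := (le_abs_self _).trans (h3.trans (min_le_right _ _))
    linarith
  · have h5 := h3.trans (min_le_left _ _)
    have e1 : Real.log ‖kh N ψ ψ' χ‖ - N * (s ψ ψ' χ).re =
        N * (Real.log ‖kh N ψ ψ' χ‖ / N - (s ψ ψ' χ).re) := by
      field_simp
    rw [e1, abs_mul, abs_of_pos hN, mul_comm]
    gcongr

end Pool.Agent.Y967.CBY
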