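import Pool.Agent.Y967.CBY.Bas
import Pool.Agent.Y967.CBY.Bas2
import Pool.Agent.W366.HT.Int
import Pool.Agent.Y967.CB.TgInt
import Pool.Agent.Y472.B.Defs

/-!
# Interpolation of `log R_d`, `log S_d`, `log T_d` near a general `d / N`
-/

set_option autoImplicit false

namespace Pool.Agent.Y967.CBY

open Filter Finset Topology Metric MeasureTheory
open Pool.Agent.W366.HT (fB gB nw nw_diff diffOn_div exp_gB fB_real sumB cos_re' norm_cos_le
  norm_log_le')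
open Pool.Agent.W711.HT (Rp Sd rrF ssF)
open Pool.Agent.Y472 (Tg)
open Pool.Agent.Y967.CB.TI (half_le)
open scoped Real

/-- the values of the variable of the axis -/
def XX (y₀ : ℝ) : Set ℂ := ball ((y₀ : ℂ) * Complex.I) (1 / 100)

lemma mem_XX {y₀ : ℝ} {χ : ℂ} (hχ : χ ∈ XX y₀) : |χ.re| ≤ 1 / 100 ∧ |χ.im - y₀| ≤ 1 / 100 := by
  unfold XX at hχ
  rw [mem_ball, dist_eq_norm] at hχ
  have h1 := (Complex.abs_re_le_norm (χ - (y₀ : ℂ) * Complex.I)).trans hχ.le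
  have h2 := (Complex.abs_im_le_norm (χ - (y₀ : ℂ) * Complex.I)).trans hχ.le
  have e1 : (χ - (y₀ : ℂ) * Complex.I).re = χ.re := by simp
  have e2 : (χ - (y₀ : ℂ) * Complex.I).im = χ.im - y₀ := by simp
  rw [e1] at h1
  rw [e2] at h2
  exact ⟨h1, h2⟩

lemma cos_small {x : ℝ} (hx : |x| ≤ 1 / 100) : 999 / 1000 ≤ Real.cos x := by
  have h3 := Real.one_sub_sq_div_two_le_cos (x := x)
  have h4 : x ^ 2 ≤ (1 / 100) ^ 2 := by
    rw [← sq_abs]
    exact pow_le_pow_left₀ (abs_nonneg _) hx 2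
  linarith

lemma cosh_two_le {y : ℝ} (hy : |y| ≤ 2) : 2 * Real.cosh y ≤ 9 := by
  have h1 : Real.cosh y ≤ Real.cosh 2 := by
    rw [Real.cosh_le_cosh, abs_of_pos (by norm_num : (0:ℝ) < 2)]
    exact hy
  have h2 : 2 * Real.cosh 2 = Real.exp 2 + Real.exp (-2) := by
    rw [Real.cosh_eq]
    ring
  have h3 : Real.exp (-2) ≤ 1 := Real.exp_le_one_iff.2 (by norm_num)
  have h4 : Real.exp 2 ≤ 8 := by
    have h5 : Real.exp 2 = Real.exp 1 * Real.exp 1 := by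
      rw [← Real.exp_add]
      norm_num
    have h6 := Real.exp_one_lt_d9
    have h7 := Real.exp_pos 1
    rw [h5]
    nlinarith
  linarith

lemma two_cos_re (χ : ℂ) : (2 * Complex.cos χ).re = 2 * (Real.cos χ.re * Real.cosh χ.im) := by
  rw [← cos_re']
  simp

/-- parameters from small real parts -/
lemma cos_mem {χ : ℂ} (h1 : |χ.re| ≤ 1 / 100) (h2 : |χ.im| ≤ 2) : 2 * Complex.cos χ ∈ CC := by
  constructor
  · rw [two_cos_re]
    have h3 := cos_small h1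
    have h4 := Real.one_le_cosh χ.im
    nlinarith
  · rw [norm_mul, Complex.norm_two]
    have h3 := norm_cos_le χ
    have h4 := cosh_two_le h2
    linarith

lemma XX_cos {y₀ : ℝ} (h0 : 0 < y₀) (h1 : y₀ ≤ 9 / 5) {χ : ℂ} (hχ : χ ∈ XX y₀) :
    2 * Complex.cos χ ∈ CC := by
  obtain ⟨h2, h3⟩ := mem_XX hχ
  refine cos_mem h2 ?_
  rw [abs_le] at h3 ⊢
  constructor <;> linarith

lemma XX_half {y₀ : ℝ} (h0 : 0 < y₀) (h1 : y₀ ≤ 9 / 5) {χ : ℂ} (hχ : χ ∈ XX y₀) :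
    1 ≤ (2 * Complex.cos (χ / 2)).re ∧ ‖2 * Complex.cos (χ / 2)‖ ≤ 9 := by
  obtain ⟨h2, h3⟩ := mem_XX hχ
  have e1 : (χ / 2).re = χ.re / 2 := by simp
  have e2 : (χ / 2).im = χ.im / 2 := by simp
  have h4 : 2 * Complex.cos (χ / 2) ∈ CC := by
    refine cos_mem ?_ ?_
    · rw [e1, abs_div, abs_of_pos (by norm_num : (0:ℝ) < 2)]
      linarith [abs_nonneg χ.re]
    · rw [e2]
      rw [abs_le] at h3 ⊢
      constructor <;> linarith
  exact ⟨by linarith [h4.1], h4.2⟩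

/-- the factors of `R_d` -/
lemma exp_fC {ψ : ℂ} (hψ : 2 * Complex.cos ψ ∈ CC) {N j : ℕ}
    (h1 : ((2 * j + 1) / (2 * N) : ℝ) ≤ 319 / 1000) (hN : 0 < N) :
    Complex.exp (fC (2 * Complex.cos ψ) (((2 * j + 1) / (2 * N) : ℝ) : ℂ)) =
      2 * Complex.cos ψ + 2 * (Real.cos (W711.HT.phi N j) : ℂ) := by
  have hN' : (N : ℝ) ≠ 0 := by exact_mod_cast hN.ne'
  have hz := real_mem_DD (x := (2 * j + 1) / (2 * N)) (by positivity) h1
  unfold fC
  rw [Complex.exp_log (arc_ne hψ hz)]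
  unfold arc
  have e : (2 * π * (((2 * j + 1) / (2 * N) : ℝ) : ℂ) : ℂ) = ((W711.HT.phi N j : ℝ) : ℂ) := by
    have e' : 2 * π * ((2 * j + 1) / (2 * N)) = W711.HT.phi N j := by
      unfold W711.HT.phi
      field_simp
    rw [← e']
    push_cast
    ring
  rw [e, Complex.ofReal_cos]

/-- the factors of `Tg` -/
lemma exp_fC' {χ : ℂ} (hχ : 2 * Complex.cos χ ∈ CC) {x : ℝ} (h0 : 181 / 1000 ≤ x)
    (h1 : x ≤ 1 / 2) :
    Complex.exp (fC (2 * Complex.cos χ) ((1 / 2 - x : ℝ) : ℂ)) =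
      2 * Complex.cos χ - 2 * (Real.cos (2 * π * x) : ℂ) := by
  have hz := real_mem_DD (x := 1 / 2 - x) (by linarith) (by linarith)
  unfold fC
  rw [Complex.exp_log (arc_ne hχ hz)]
  unfold arc
  have e : (2 * π * ((1 / 2 - x : ℝ) : ℂ) : ℂ) = ((π - 2 * π * x : ℝ) : ℂ) := by
    push_cast
    ring
  rw [e, ← Complex.ofReal_cos, Real.cos_pi_sub]
  push_cast
  ring

/-- the logarithm of `Tg` -/
noncomputable def GC (N m : ℕ) (χ : ℂ) : ℂ :=
  (if N % 2 = 0 then Complex.log (2 * Complex.cos (χ / 2)) else 0) +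
    ∑ t ∈ Ioc m ((N - 1) / 2), fC (2 * Complex.cos χ) ((1 / 2 - (t : ℝ) / N : ℝ) : ℂ)

lemma Tg_eq' {N d : ℕ} (hN : 0 < N) {y₀ : ℝ} (h0 : 0 < y₀) (h9 : y₀ ≤ 9 / 5) {χ : ℂ}
    (hχ : χ ∈ XX y₀) (hd : 181 / 1000 ≤ (d : ℝ) / N) : Tg N d χ = Complex.exp (GC N d χ) := by
  have hN' : (0 : ℝ) < N := by exact_mod_cast hN
  unfold Tg GC
  rw [Complex.exp_add, Complex.exp_sum]
  congr 1
  · by_cases h : N % 2 = 0
    · rw [if_pos h, if_pos h, Complex.exp_log]
      intro hcon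
      have := (XX_half h0 h9 hχ).1
      rw [hcon, Complex.zero_re] at this
      linarith
    · rw [if_neg h, if_neg h, Complex.exp_zero]
  · refine prod_congr rfl fun t ht => ?_
    rw [mem_Ioc] at ht
    have h1 : (d : ℝ) / N ≤ (t : ℝ) / N :=
      div_le_div_of_nonneg_right (by exact_mod_cast ht.1.le) hN'.le
    have h2 : (t : ℝ) / N ≤ 1 / 2 := by
      have h3 : (t : ℝ) / N ≤ (((N - 1) / 2 : ℕ) : ℝ) / N :=
        div_le_div_of_nonneg_right (by exact_mod_cast ht.2) hN'.le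
      have h4 := (half_le N hN).1
      have h5 : 0 ≤ 1 / (2 * N : ℝ) := by positivity
      linarith
    rw [exp_fC' (XX_cos h0 h9 hχ) (hd.trans h1) h2]
    congr 5
    ring

/-- the limit of the initial sum -/
lemma GC_lim {N m : ℕ} (hN : 1000 ≤ N) {y₀ : ℝ} (h0 : 0 < y₀) (h9 : y₀ ≤ 9 / 5) {χ : ℂ}
    (hχ : χ ∈ XX y₀) (h1 : 363 / 2000 ≤ (m : ℝ) / N) (h2 : (m : ℝ) / N ≤ 1 / 4) :
    ‖GC N m χ / N - HC (2 * Complex.cos χ) (1 / 2 - (m : ℂ) / N)‖ ≤ 60 / N := by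
  have hc := XX_cos h0 h9 hχ
  have hN0 : 0 < N := by omega
  have hN' : (0 : ℝ) < N := by exact_mod_cast hN0
  obtain ⟨n, hn⟩ : ∃ n, n = (N - 1) / 2 := ⟨_, rfl⟩
  have hh := half_le N hN0
  rw [← hn] at hh
  have hinv : (1 / N : ℝ) ≤ 1 / 1000 := by
    rw [div_le_div_iff₀ hN' (by norm_num)]
    have : (1000 : ℝ) ≤ N := by exact_mod_cast hN
    linarith
  have hinv0 : 0 ≤ 1 / (2 * N : ℝ) := by positivity
  have hmn : m ≤ n := by
    have h3 : (m : ℝ) / N ≤ (n : ℝ) / N := by linarith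
    rw [div_le_div_iff_of_pos_right hN'] at h3
    exact_mod_cast h3
  obtain ⟨k, hk⟩ : ∃ k, n = m + k := ⟨n - m, by omega⟩
  have hkN : (k : ℝ) / N ≤ 319 / 1000 := by
    have e : (n : ℝ) / N = (m : ℝ) / N + (k : ℝ) / N := by rw [hk]; push_cast; ring
    linarith
  have hkN0 : 0 ≤ (k : ℝ) / N := by positivity
  have hkN' : (k : ℝ) / N + 1 / (2 * N) ≤ 637 / 2000 := by
    have e : (n : ℝ) / N = (m : ℝ) / N + (k : ℝ) / N := by rw [hk]; push_cast; ring
    linarith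
  -- reflect
  have e1 : ∑ t ∈ Ioc m n, fC (2 * Complex.cos χ) ((1 / 2 - (t : ℝ) / N : ℝ) : ℂ) =
      ∑ j ∈ range k, fC (2 * Complex.cos χ) ((1 / 2 - (n : ℝ) / N + (j : ℝ) / N : ℝ) : ℂ) := by
    refine Finset.sum_nbij' (fun t => n - t) (fun j => n - j) ?_ ?_ ?_ ?_ ?_
    · intro t ht
      rw [mem_Ioc] at ht
      rw [mem_range]
      omega
    · intro j hj
      rw [mem_range] at hj
      rw [mem_Ioc]
      omega
    · intro t ht
      rw [mem_Ioc] at ht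
      omega
    · intro j hj
      rw [mem_range] at hj
      omega
    · intro t ht
      rw [mem_Ioc] at ht
      congr 2
      rw [Nat.cast_sub ht.2]
      ring
  -- compare the nodes
  have e2 : ‖∑ j ∈ range k, fC (2 * Complex.cos χ) ((1 / 2 - (n : ℝ) / N + (j : ℝ) / N : ℝ) : ℂ) -
      ∑ j ∈ range k, fC (2 * Complex.cos χ) (((2 * j + 1) / (2 * N) : ℝ) : ℂ)‖ ≤ 7 := by
    rw [← Finset.sum_sub_distrib]
    have h3 : ∀ j ∈ range k,
        ‖fC (2 * Complex.cos χ) ((1 / 2 - (n : ℝ) / N + (j : ℝ) / N : ℝ) : ℂ) -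
        fC (2 * Complex.cos χ) (((2 * j + 1) / (2 * N) : ℝ) : ℂ)‖ ≤ 19 * (1 / N) := by
      intro j hj
      rw [mem_range] at hj
      have hj' : (j : ℝ) + 1 ≤ k := by exact_mod_cast hj
      have hjN : (j : ℝ) / N + 1 / N ≤ (k : ℝ) / N := by
        rw [← add_div]
        exact div_le_div_of_nonneg_right hj' hN'.le
      have hj0 : 0 ≤ (j : ℝ) / N := by positivity
      have e3 : ((2 * j + 1) / (2 * N) : ℝ) = (j : ℝ) / N + 1 / (2 * N) := by
        field_simp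
      have e4 : 1 / (2 * N : ℝ) ≤ 1 / N := by
        rw [div_le_div_iff₀ (by positivity) hN']
        linarith
      refine (fC_lip hc (real_mem_DD ?_ ?_) (real_mem_DD ?_ ?_)).trans ?_
      · rw [e3]; positivity
      · rw [e3]; linarith
      · linarith
      · linarith
      · rw [← Complex.ofReal_sub, Complex.norm_real, Real.norm_eq_abs, e3, abs_of_nonneg (by linarith)]
        have e5 : 1 / (N : ℝ) = 2 * (1 / (2 * N)) := by field_simp
        linarith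
    refine (norm_sum_le_of_le _ h3).trans ?_
    rw [Finset.sum_const, card_range, nsmul_eq_mul]
    have : (k : ℝ) * (19 * (1 / N)) = 19 * ((k : ℝ) / N) := by ring
    rw [this]
    linarith
  have e3 := sumC hc hN0 hkN
  have hkc : ((k : ℂ) / N) = (((k : ℝ) / N : ℝ) : ℂ) := by push_cast; rfl
  have hmc : (1 / 2 - (m : ℂ) / N) = ((1 / 2 - (m : ℝ) / N : ℝ) : ℂ) := by push_cast; rfl
  have hkm : ((k : ℂ) / N) ∈ DD := by
    rw [hkc]
    exact real_mem_DD hkN0 hkN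
  have hmm : (1 / 2 - (m : ℂ) / N) ∈ DD := by
    rw [hmc]
    exact real_mem_DD (by linarith) (by linarith)
  have e4 := HC_close hc hmm hkm
  have e5 : ‖(1 / 2 - (m : ℂ) / N) - (k : ℂ) / N‖ ≤ 1 / N := by
    rw [hkc, hmc, ← Complex.ofReal_sub, Complex.norm_real, Real.norm_eq_abs]
    have e : (n : ℝ) / N = (m : ℝ) / N + (k : ℝ) / N := by rw [hk]; push_cast; ring
    rw [abs_of_nonneg (by linarith)]
    linarith
  have e6 : ‖(if N % 2 = 0 then Complex.log (2 * Complex.cos (χ / 2)) else 0 : ℂ)‖ ≤ 13 := by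
    split_ifs
    · have := norm_log_le' (XX_half h0 h9 hχ).1 (XX_half h0 h9 hχ).2
      linarith
    · rw [norm_zero]
      norm_num
  have hNn : ‖(N : ℂ)‖ = N := by
    rw [Complex.norm_natCast]
  unfold GC
  rw [← hn, e1]
  set A : ℂ := (if N % 2 = 0 then Complex.log (2 * Complex.cos (χ / 2)) else 0 : ℂ) with hA
  set B := ∑ j ∈ range k, fC (2 * Complex.cos χ) ((1 / 2 - (n : ℝ) / N + (j : ℝ) / N : ℝ) : ℂ)
    with hB
  set B' := ∑ j ∈ range k, fC (2 * Complex.cos χ) (((2 * j + 1) / (2 * N) : ℝ) : ℂ) with hB'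
  have e7 : (A + B) / N - HC (2 * Complex.cos χ) (1 / 2 - (m : ℂ) / N) = A / N + (B - B') / N +
      (B' / N - HC (2 * Complex.cos χ) ((k : ℂ) / N)) -
      (HC (2 * Complex.cos χ) (1 / 2 - (m : ℂ) / N) - HC (2 * Complex.cos χ) ((k : ℂ) / N)) := by
    ring
  rw [e7]
  have f1 : ‖A / N‖ ≤ 13 / N := by
    rw [norm_div, hNn]
    gcongr
  have f2 : ‖(B - B') / N‖ ≤ 7 / N := by
    rw [norm_div, hNn]
    gcongr
  have f3 : ‖HC (2 * Complex.cos χ) (1 / 2 - (m : ℂ) / N) -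
      HC (2 * Complex.cos χ) ((k : ℂ) / N)‖ ≤ 19 / N := by
    refine e4.trans ?_
    have : (19 : ℝ) / N = 19 * (1 / N) := by ring
    rw [this]
    gcongr
  have f4 := norm_sub_le (A / N + (B - B') / N + (B' / N - HC (2 * Complex.cos χ) ((k : ℂ) / N)))
    (HC (2 * Complex.cos χ) (1 / 2 - (m : ℂ) / N) - HC (2 * Complex.cos χ) ((k : ℂ) / N))
  have f5 := norm_add_le (A / N + (B - B') / N) (B' / N - HC (2 * Complex.cos χ) ((k : ℂ) / N))
  have f6 := norm_add_le (A / N) ((B - B') / N)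
  have f7 : (60 : ℝ) / N = 13 / N + 7 / N + 13 / N + 19 / N + 8 / N := by ring
  have f8 : 0 ≤ (8 : ℝ) / N := by positivity
  rw [f7]
  linarith

end Pool.Agent.Y967.CBY
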