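import Pool.Agent.Y967.CBY.IntY

/-!
# Interpolation near a general `d / N`: the theorem
-/

set_option autoImplicit false

namespace Pool.Agent.Y967.CBY

open Filter Finset Topology Metric MeasureTheory
open Pool.Agent.W366.HT (fB gB nw nw_diff diffOn_div exp_gB fB_real sumB fB_diff)
open Pool.Agent.W711.HT (Rp Sd rrF ssF)
open Pool.Agent.Y472 (Tg)
open Pool.Agent.Y967.CB.TI (half_le)
open scoped Real

lemma cast_inv_norm {x : ℝ} (hx : 0 ≤ x) : ‖((x : ℝ) : ℂ)‖ = x := by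
  rw [Complex.norm_real, Real.norm_eq_abs, abs_of_nonneg hx]

lemma inv_le' {N : ℕ} (hN : 1000 ≤ N) : 0 ≤ (1 / (2 * N) : ℝ) ∧ (1 / (2 * N) : ℝ) ≤ 1 / 1000 ∧
    (0 : ℝ) ≤ 1 / N ∧ (1 / N : ℝ) ≤ 1 / 1000 := by
  have h : (1000 : ℝ) ≤ N := by exact_mod_cast hN
  refine ⟨by positivity, ?_, by positivity, ?_⟩
  · rw [div_le_div_iff₀ (by positivity) (by norm_num)]; linarith
  · rw [div_le_div_iff₀ (by positivity) (by norm_num)]; linarith

/-- `z + x ∈ DD` -/
lemma shY {δ₀ : ℝ} (h1 : 3 / 16 ≤ δ₀) (h2 : δ₀ ≤ 1 / 4) {z : ℂ}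
    (hz : z ∈ ball (δ₀ : ℂ) (1 / 200)) {x : ℝ} (h0 : 0 ≤ x) (hx : x ≤ 1 / 1000) :
    z + x ∈ DD := by
  unfold DD
  rw [mem_ball, dist_eq_norm] at hz ⊢
  have e : z + x - 31 / 200 = (z - δ₀) + ((δ₀ + x - 31 / 200 : ℝ) : ℂ) := by push_cast; ring
  rw [e]
  refine (norm_add_le _ _).trans_lt ?_
  rw [cast_inv_norm (by linarith)]
  linarith

/-- `1 / 2 - (z + x) ∈ DD` -/
lemma rfY {δ₀ : ℝ} (h1 : 3 / 16 ≤ δ₀) (h2 : δ₀ ≤ 1 / 4) {z : ℂ}
    (hz : z ∈ ball (δ₀ : ℂ) (1 / 200)) {x : ℝ} (h0 : 0 ≤ x) (hx : x ≤ 1 / 1000) :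
    1 / 2 - (z + x) ∈ DD := by
  unfold DD
  rw [mem_ball, dist_eq_norm] at hz ⊢
  have e : 1 / 2 - (z + x) - 31 / 200 = -(z - δ₀) + ((69 / 200 - δ₀ - x : ℝ) : ℂ) := by
    push_cast; ring
  rw [e]
  refine (norm_add_le _ _).trans_lt ?_
  rw [norm_neg, cast_inv_norm (by linarith)]
  linarith

/-- `z + x ∈ ball (1 / 4) (1 / 10)` -/
lemma shB {δ₀ : ℝ} (h1 : 3 / 16 ≤ δ₀) (h2 : δ₀ ≤ 1 / 4) {z : ℂ}
    (hz : z ∈ ball (δ₀ : ℂ) (1 / 200)) {x : ℝ} (h0 : 0 ≤ x) (hx : x ≤ 1 / 1000) :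
    z + x ∈ ball (1 / 4 : ℂ) (1 / 10) := by
  rw [mem_ball, dist_eq_norm] at hz ⊢
  have e : z + x - 1 / 4 = (z - δ₀) + ((x : ℝ) : ℂ) - ((1 / 4 - δ₀ : ℝ) : ℂ) := by
    push_cast; ring
  rw [e]
  refine (norm_sub_le _ _).trans_lt ?_
  have h3 := norm_add_le (z - δ₀) ((x : ℝ) : ℂ)
  rw [cast_inv_norm h0] at h3
  rw [cast_inv_norm (by linarith)]
  linarith

lemma real_memY {δ₀ x : ℝ} {r : ℝ} (h : |x - δ₀| < r) : (x : ℂ) ∈ ball (δ₀ : ℂ) r := by
  rw [mem_ball, dist_eq_norm]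
  have e : (x : ℂ) - δ₀ = ((x - δ₀ : ℝ) : ℂ) := by push_cast; ring
  rw [e, Complex.norm_real, Real.norm_eq_abs]
  exact h

theorem intY (hNewt : W711.HT.S_NEWT) {δ₀ y₀ : ℝ} (hδ1 : 3 / 16 ≤ δ₀) (hδ2 : δ₀ ≤ 1 / 4)
    (hy0 : 0 < y₀) (hy9 : y₀ ≤ 9 / 5) :
    ∃ ρ : ℝ, 0 < ρ ∧ ρ < 1 / 200 ∧ ∃ (r : ℕ → {c : ℂ // c ∈ CC} → ℂ → ℂ) (sn : ℕ → ℂ → ℂ)
      (τg : ℕ → {χ : ℂ // χ ∈ XX y₀} → ℂ → ℂ),
    (∀ᶠ N : ℕ in atTop, ∀ c, DifferentiableOn ℂ (r N c) (ball (δ₀ : ℂ) ρ)) ∧
    (∀ᶠ N : ℕ in atTop, DifferentiableOn ℂ (sn N) (ball (δ₀ : ℂ) ρ)) ∧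
    (∀ᶠ N : ℕ in atTop, ∀ χ, DifferentiableOn ℂ (τg N χ) (ball (δ₀ : ℂ) ρ)) ∧
    (∀ᶠ N : ℕ in atTop, ∀ d : ℕ, |(d : ℝ) / N - δ₀| < ρ →
      (∀ (ψ : ℂ) (h : 2 * Complex.cos ψ ∈ CC),
        Rp N d ψ = Complex.exp (N * r N ⟨2 * Complex.cos ψ, h⟩ ((d : ℂ) / N))) ∧
      (Sd N d : ℂ) = Complex.exp (N * sn N ((d : ℂ) / N)) ∧
      ∀ χ : {χ : ℂ // χ ∈ XX y₀}, Tg N d χ.1 = Complex.exp (N * τg N χ ((d : ℂ) / N))) ∧
    (∀ ε : ℝ, 0 < ε → ∀ᶠ N : ℕ in atTop, ∀ z ∈ ball (δ₀ : ℂ) ρ,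
      (∀ c, ‖r N c z - HC c.1 z‖ ≤ ε) ∧ ‖sn N z - ssF z‖ ≤ ε ∧
      ∀ χ, ‖τg N χ z - HC (2 * Complex.cos χ.1) (1 / 2 - z)‖ ≤ ε) := by
  obtain ⟨ρ, hρ0, hρR, hNw⟩ := hNewt (1 / 200) (by norm_num)
  obtain ⟨m, hm⟩ : ∃ m : ℕ → ℕ, m = fun N : ℕ => ⌊(δ₀ - ρ) * (N : ℝ)⌋₊ := ⟨_, rfl⟩
  have hmt : Tendsto (fun N : ℕ => (m N : ℝ) / N) atTop (𝓝 (δ₀ - ρ)) := by
    rw [hm]
    exact (tendsto_nat_floor_mul_div_atTop (R := ℝ) (a := δ₀ - ρ) (by linarith)).comp
      tendsto_natCast_atTop_atTop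
  have hm1 : ∀ᶠ N : ℕ in atTop, |(m N : ℝ) / N - (δ₀ - ρ)| ≤ ρ / 4 := by
    have := Metric.tendsto_nhds.1 hmt (ρ / 4) (by linarith)
    filter_upwards [this] with N hN
    rw [Real.dist_eq] at hN
    exact hN.le
  have hm2 : ∀ᶠ N : ℕ in atTop, δ₀ - 1 / 200 < (m N : ℝ) / N :=
    hmt.eventually_const_lt (by linarith)
  -- the first family
  obtain ⟨cA, DA, -, hsA, hlA⟩ := hNw δ₀ {c : ℂ // c ∈ CC}
    (fun N k z => fC k.1 (z + (1 / (2 * N) : ℝ))) (fun k z => fC k.1 z) 19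
    (by
      filter_upwards [eventually_ge_atTop 1000] with N hN k
      refine (fC_diff k.2).comp (by fun_prop) ?_
      intro z hz
      exact shY hδ1 hδ2 hz (inv_le' hN).1 (inv_le' hN).2.1)
    (by
      intro k
      refine (fC_diff k.2).mono ?_
      intro z hz
      have := shY hδ1 hδ2 hz (le_refl (0:ℝ)) (by norm_num)
      simpa using this)
    (by
      filter_upwards [eventually_ge_atTop 1000] with N hN k z hz
      exact fC_norm k.2 (shY hδ1 hδ2 hz (inv_le' hN).1 (inv_le' hN).2.1))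
    (by
      intro ε hε
      have hlim : Tendsto (fun N : ℕ => 38 * ((1 / 2) * (1 / (N : ℝ)))) atTop (𝓝 0) := by
        have := ((tendsto_one_div_atTop_nhds_zero_nat (𝕜 := ℝ)).const_mul (1 / 2)).const_mul 38
        simpa using this
      filter_upwards [eventually_ge_atTop 1000, hlim.eventually_lt_const hε] with N hN hN2 k z hz
      have hz0 : z ∈ DD := by
        have := shY hδ1 hδ2 hz (le_refl (0:ℝ)) (by norm_num)
        simpa using this
      refine (fC_lip k.2 hz0 (shY hδ1 hδ2 hz (inv_le' hN).1 (inv_le' hN).2.1)).trans ?_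
      rw [add_sub_cancel_left, cast_inv_norm (inv_le' hN).1]
      refine le_trans (le_of_eq ?_) hN2.le
      ring)
    m hm1
  -- the second family
  obtain ⟨cB, DB, -, hsB, hlB⟩ := hNw δ₀ Unit
    (fun N _ z => fB (z + (1 / N : ℝ))) (fun _ z => fB z) 10
    (by
      filter_upwards [eventually_ge_atTop 1000] with N hN k
      refine (fB_diff.mono B_sub').comp (by fun_prop) ?_
      intro z hz
      exact shB hδ1 hδ2 hz (inv_le' hN).2.2.1 (inv_le' hN).2.2.2)
    (by
      intro k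
      refine (fB_diff.mono B_sub').mono ?_
      intro z hz
      have := shB hδ1 hδ2 hz (le_refl (0:ℝ)) (by norm_num)
      simpa using this)
    (by
      filter_upwards [eventually_ge_atTop 1000] with N hN k z hz
      exact fB_bound1' (shB hδ1 hδ2 hz (inv_le' hN).2.2.1 (inv_le' hN).2.2.2))
    (by
      intro ε hε
      have hlim : Tendsto (fun N : ℕ => 24 * (1 / (N : ℝ))) atTop (𝓝 0) := by
        have := (tendsto_one_div_atTop_nhds_zero_nat (𝕜 := ℝ)).const_mul 24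
        simpa using this
      filter_upwards [eventually_ge_atTop 1000, hlim.eventually_lt_const hε] with N hN hN2 k z hz
      have hz0 : z ∈ ball (1 / 4 : ℂ) (1 / 10) := by
        have := shB hδ1 hδ2 hz (le_refl (0:ℝ)) (by norm_num)
        simpa using this
      refine (fB_lip' hz0 (shB hδ1 hδ2 hz (inv_le' hN).2.2.1 (inv_le' hN).2.2.2)).trans ?_
      rw [add_sub_cancel_left, cast_inv_norm (inv_le' hN).2.2.1]
      exact hN2.le)
    m hm1
  -- the third family
  obtain ⟨cG, DG, -, hsG, hlG⟩ := hNw δ₀ {χ : ℂ // χ ∈ XX y₀}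
    (fun N k z => fC (2 * Complex.cos k.1) (1 / 2 - (z + (1 / N : ℝ))))
    (fun k z => fC (2 * Complex.cos k.1) (1 / 2 - z)) 19
    (by
      filter_upwards [eventually_ge_atTop 1000] with N hN k
      refine (fC_diff (XX_cos hy0 hy9 k.2)).comp (by fun_prop) ?_
      intro z hz
      exact rfY hδ1 hδ2 hz (inv_le' hN).2.2.1 (inv_le' hN).2.2.2)
    (by
      intro k
      refine (fC_diff (XX_cos hy0 hy9 k.2)).comp (by fun_prop) ?_
      intro z hz
      have := rfY hδ1 hδ2 hz (le_refl (0:ℝ)) (by norm_num)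
      simpa using this)
    (by
      filter_upwards [eventually_ge_atTop 1000] with N hN k z hz
      exact fC_norm (XX_cos hy0 hy9 k.2) (rfY hδ1 hδ2 hz (inv_le' hN).2.2.1 (inv_le' hN).2.2.2))
    (by
      intro ε hε
      have hlim : Tendsto (fun N : ℕ => 38 * (1 / (N : ℝ))) atTop (𝓝 0) := by
        have := (tendsto_one_div_atTop_nhds_zero_nat (𝕜 := ℝ)).const_mul 38
        simpa using this
      filter_upwards [eventually_ge_atTop 1000, hlim.eventually_lt_const hε] with N hN hN2 k z hz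
      have hz0 : 1 / 2 - z ∈ DD := by
        have := rfY hδ1 hδ2 hz (le_refl (0:ℝ)) (by norm_num)
        simpa using this
      refine (fC_lip (XX_cos hy0 hy9 k.2) hz0
        (rfY hδ1 hδ2 hz (inv_le' hN).2.2.1 (inv_le' hN).2.2.2)).trans ?_
      have e : 1 / 2 - (z + ((1 / N : ℝ) : ℂ)) - (1 / 2 - z) = -((1 / N : ℝ) : ℂ) := by ring
      rw [e, norm_neg, cast_inv_norm (inv_le' hN).2.2.1]
      exact hN2.le)
    m hm1
  refine ⟨ρ / 2, by linarith, by linarith,
    fun N c z => (∑ j ∈ range (m N), fC c.1 (((2 * j + 1) / (2 * N) : ℝ) : ℂ)) / N +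
      (∑ j ∈ range (DA N), cA N j c * nw N (m N) j z) / N,
    fun N z => (∑ k ∈ range (m N), ((gB ((k + 1) / N) : ℝ) : ℂ)) / N +
      (∑ j ∈ range (DB N), cB N j () * nw N (m N) j z) / N,
    fun N χ z => GC N (m N) χ.1 / N -
      (∑ j ∈ range (DG N), cG N j χ * nw N (m N) j z) / N, ?_, ?_, ?_, ?_, ?_⟩
  · filter_upwards with N c
    refine DifferentiableOn.add (differentiableOn_const _) (DifferentiableOn.div_const
      (DifferentiableOn.fun_sum fun j _ => ?_) _)
    exact ((nw_diff _ _ _).differentiableOn).const_mul _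
  · filter_upwards with N
    refine DifferentiableOn.add (differentiableOn_const _) (DifferentiableOn.div_const
      (DifferentiableOn.fun_sum fun j _ => ?_) _)
    exact ((nw_diff _ _ _).differentiableOn).const_mul _
  · filter_upwards with N χ
    refine DifferentiableOn.sub (differentiableOn_const _) (DifferentiableOn.div_const
      (DifferentiableOn.fun_sum fun j _ => ?_) _)
    exact ((nw_diff _ _ _).differentiableOn).const_mul _
  · -- interpolation
    filter_upwards [eventually_ge_atTop 1000, hm1, hm2, hsA, hsB, hsG] with N hN hmN hmN2 hsA hsB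
      hsG d hd
    have hN0 : 0 < N := by omega
    have hN' : (0 : ℝ) < N := by exact_mod_cast hN0
    have hNc : (N : ℂ) ≠ 0 := by exact_mod_cast hN0.ne'
    have hmd : m N ≤ d := by
      have h1 : (m N : ℝ) / N ≤ (d : ℝ) / N := by
        have h2 := (abs_le.1 hmN).2
        have h3 := (abs_lt.1 hd).1
        linarith
      rw [div_le_div_iff_of_pos_right hN'] at h1
      exact_mod_cast h1
    have hdN : (d : ℝ) / N < 26 / 100 := by
      have h3 := (abs_lt.1 hd).2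
      linarith
    have hdm : 181 / 1000 ≤ (d : ℝ) / N := by
      have h3 := (abs_lt.1 hd).1
      linarith
    have hdn : d ≤ (N - 1) / 2 := by
      have h1 := (half_le N hN0).2
      have h2 := (inv_le' hN).2.2.2
      have h3 : (d : ℝ) / N ≤ (((N - 1) / 2 : ℕ) : ℝ) / N := by linarith
      rw [div_le_div_iff_of_pos_right hN'] at h3
      exact_mod_cast h3
    have hnw : ∀ j, nw N (m N) j ((d : ℂ) / N) =
        (∏ i ∈ range (j + 1), ((d : ℂ) - m N - i)) / ((j + 1).factorial : ℂ) := by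
      intro j
      unfold nw
      rw [mul_div_cancel₀ _ hNc]
    refine ⟨?_, ?_, ?_⟩
    · intro ψ hψ
      have h1 := hsA ⟨2 * Complex.cos ψ, hψ⟩ d hd.le
      have e1 : ∑ j ∈ range (DA N), cA N j ⟨2 * Complex.cos ψ, hψ⟩ * nw N (m N) j ((d : ℂ) / N) =
          ∑ j ∈ Ico (m N) d, fC (2 * Complex.cos ψ) (((2 * j + 1) / (2 * N) : ℝ) : ℂ) := by
        have e0 : ∑ j ∈ range (DA N), cA N j ⟨2 * Complex.cos ψ, hψ⟩ * nw N (m N) j ((d : ℂ) / N) =
            ∑ j ∈ Ico (m N) d, fC (2 * Complex.cos ψ) ((j : ℂ) / N + (1 / (2 * N) : ℝ)) := by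
          rw [h1]
          refine sum_congr rfl fun j _ => ?_
          rw [hnw]
        rw [e0]
        refine sum_congr rfl fun j _ => ?_
        congr 1
        push_cast
        field_simp
      have e3 : (N : ℂ) * ((∑ j ∈ range (m N),
          fC (2 * Complex.cos ψ) (((2 * j + 1) / (2 * N) : ℝ) : ℂ)) / N +
          (∑ j ∈ range (DA N), cA N j ⟨2 * Complex.cos ψ, hψ⟩ * nw N (m N) j ((d : ℂ) / N)) / N) =
          ∑ j ∈ range d, fC (2 * Complex.cos ψ) (((2 * j + 1) / (2 * N) : ℝ) : ℂ) := by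
        rw [e1, ← add_div, mul_div_cancel₀ _ hNc]
        exact sum_range_add_sum_Ico _ hmd
      show Rp N d ψ = Complex.exp ((N : ℂ) * ((∑ j ∈ range (m N),
          fC (2 * Complex.cos ψ) (((2 * j + 1) / (2 * N) : ℝ) : ℂ)) / N +
          (∑ j ∈ range (DA N), cA N j ⟨2 * Complex.cos ψ, hψ⟩ * nw N (m N) j ((d : ℂ) / N)) / N))
      rw [e3, Complex.exp_sum]
      unfold Rp
      refine prod_congr rfl fun j hj => ?_
      rw [exp_fC hψ _ hN0]
      have hj' : (j : ℝ) + 1 ≤ d := by exact_mod_cast mem_range.1 hj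
      have h2 : ((2 * j + 1) / (2 * N) : ℝ) ≤ (d : ℝ) / N := by
        rw [div_le_div_iff₀ (by positivity) hN']
        nlinarith
      linarith
    · have h1 := hsB () d hd.le
      have e1 : ∑ j ∈ range (DB N), cB N j () * nw N (m N) j ((d : ℂ) / N) =
          ∑ j ∈ Ico (m N) d, fB ((j : ℂ) / N + (1 / N : ℝ)) := by
        rw [h1]
        refine sum_congr rfl fun j _ => ?_
        rw [hnw]
      have e2 : ∑ j ∈ Ico (m N) d, fB ((j : ℂ) / N + (1 / N : ℝ)) =
          ∑ j ∈ Ico (m N) d, ((gB ((j + 1) / N) : ℝ) : ℂ) := by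
        refine sum_congr rfl fun j hj => ?_
        rw [mem_Ico] at hj
        have hj' : (j : ℝ) + 1 ≤ d := by exact_mod_cast hj.2
        rw [← fB_real (by positivity)]
        · congr 1
          push_cast
          ring
        · have : ((j : ℝ) + 1) / N ≤ (d : ℝ) / N := div_le_div_of_nonneg_right hj' hN'.le
          linarith
      have e3 : (N : ℂ) * ((∑ k ∈ range (m N), ((gB ((k + 1) / N) : ℝ) : ℂ)) / N +
          (∑ j ∈ range (DB N), cB N j () * nw N (m N) j ((d : ℂ) / N)) / N) =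
          ∑ k ∈ range d, ((gB ((k + 1) / N) : ℝ) : ℂ) := by
        rw [e1, e2, ← add_div, mul_div_cancel₀ _ hNc]
        exact sum_range_add_sum_Ico _ hmd
      rw [e3, Complex.exp_sum]
      unfold Sd
      rw [Complex.ofReal_prod]
      refine prod_congr rfl fun k hk => ?_
      rw [exp_gB]
      have hdN2 : (d : ℝ) < N := by
        rw [div_lt_iff₀ hN'] at hdN
        linarith
      have hdN3 : d < N := by exact_mod_cast hdN2
      have := mem_range.1 hk
      omega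
    · intro χ
      have h1 := hsG χ d hd.le
      have e1 : ∑ j ∈ range (DG N), cG N j χ * nw N (m N) j ((d : ℂ) / N) =
          ∑ j ∈ Ico (m N) d, fC (2 * Complex.cos χ.1) (1 / 2 - ((j : ℂ) / N + (1 / N : ℝ))) := by
        rw [h1]
        refine sum_congr rfl fun j _ => ?_
        rw [hnw]
      have e2 : ∑ j ∈ Ico (m N) d, fC (2 * Complex.cos χ.1) (1 / 2 - ((j : ℂ) / N + (1 / N : ℝ))) =
          ∑ t ∈ Ioc (m N) d, fC (2 * Complex.cos χ.1) ((1 / 2 - (t : ℝ) / N : ℝ) : ℂ) := by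
        refine Finset.sum_nbij' (fun j => j + 1) (fun t => t - 1) ?_ ?_ ?_ ?_ ?_
        · intro j hj
          rw [mem_Ico] at hj
          rw [mem_Ioc]
          omega
        · intro t ht
          rw [mem_Ioc] at ht
          rw [mem_Ico]
          omega
        · intro j hj
          omega
        · intro t ht
          rw [mem_Ioc] at ht
          omega
        · intro j hj
          congr 1
          push_cast
          ring
      have e3 : GC N (m N) χ.1 = GC N d χ.1 + ∑ t ∈ Ioc (m N) d,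
          fC (2 * Complex.cos χ.1) ((1 / 2 - (t : ℝ) / N : ℝ) : ℂ) := by
        unfold GC
        rw [← Finset.sum_Ioc_consecutive _ hmd hdn]
        ring
      have e5 : (N : ℂ) * (GC N (m N) χ.1 / N -
          (∑ j ∈ range (DG N), cG N j χ * nw N (m N) j ((d : ℂ) / N)) / N) = GC N d χ.1 := by
        rw [e1, e2, e3]
        field_simp
        ring
      show Tg N d χ.1 = Complex.exp ((N : ℂ) * (GC N (m N) χ.1 / N -
          (∑ j ∈ range (DG N), cG N j χ * nw N (m N) j ((d : ℂ) / N)) / N))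
      rw [e5]
      exact Tg_eq' hN0 hy0 hy9 χ.2 hdm
  · -- the limits
    intro ε hε
    have hlim : Tendsto (fun N : ℕ => 60 * (1 / (N : ℝ))) atTop (𝓝 0) := by
      have := (tendsto_one_div_atTop_nhds_zero_nat (𝕜 := ℝ)).const_mul 60
      simpa using this
    filter_upwards [eventually_ge_atTop 1000, hm1, hm2, hlA (ε / 3) (by linarith),
      hlB (ε / 3) (by linarith), hlG (ε / 3) (by linarith),
      hlim.eventually_lt_const (by linarith : 0 < ε / 3),
      sumB (by linarith : 0 < ε / 3)] with N hN hmN hmN2 hlA hlB hlG hN8 hsum z hz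
    have hN0 : 0 < N := by omega
    have hN' : (0 : ℝ) < N := by exact_mod_cast hN0
    have hδ : z ∈ ball (δ₀ : ℂ) (1 / 200) := ball_subset_ball (by linarith) hz
    have hmN3 : (m N : ℝ) / N ≤ 1 / 4 := by
      have := (abs_le.1 hmN).2
      linarith
    have hmN4 : 363 / 2000 ≤ (m N : ℝ) / N := by
      have := (abs_le.1 hmN).1
      linarith
    have hzD : z ∈ DD := by
      have := shY hδ1 hδ2 hδ (le_refl (0:ℝ)) (by norm_num)
      simpa using this
    have hzD' : 1 / 2 - z ∈ DD := by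
      have := rfY hδ1 hδ2 hδ (le_refl (0:ℝ)) (by norm_num)
      simpa using this
    have hzB : z ∈ ball (1 / 4 : ℂ) (1 / 10) := by
      have := shB hδ1 hδ2 hδ (le_refl (0:ℝ)) (by norm_num)
      simpa using this
    have hmc : ((m N : ℂ) / N) = (((m N : ℝ) / N : ℝ) : ℂ) := by push_cast; rfl
    have hwD : ((m N : ℂ) / N) ∈ DD := by
      rw [hmc]
      exact real_mem_DD (by positivity) (by linarith)
    have hwD' : (1 / 2 - (m N : ℂ) / N) ∈ DD := by
      have e : (1 / 2 - (m N : ℂ) / N) = ((1 / 2 - (m N : ℝ) / N : ℝ) : ℂ) := by push_cast; rfl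
      rw [e]
      exact real_mem_DD (by linarith) (by linarith)
    have hwB : ((m N : ℂ) / N) ∈ ball (1 / 4 : ℂ) (1 / 10) := by
      rw [hmc, mem_ball, dist_eq_norm]
      have e : (((m N : ℝ) / N : ℝ) : ℂ) - 1 / 4 = (((m N : ℝ) / N - 1 / 4 : ℝ) : ℂ) := by
        push_cast; ring
      rw [e, Complex.norm_real, Real.norm_eq_abs, abs_lt]
      constructor <;> linarith
    have h60 : (60 : ℝ) / N = 60 * (1 / N) := by ring
    refine ⟨?_, ?_, ?_⟩
    · intro c
      have h13 : (13 : ℝ) / N ≤ 60 / N := div_le_div_of_nonneg_right (by norm_num) hN'.le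
      have h1 := sumC c.2 hN0 (m := m N) (by linarith)
      have h2 := hlA c z hz
      have h3 := HC_split c.2 hzD hwD
      rw [h3]
      refine le_trans (le_trans (le_of_eq ?_) ((norm_add_le _ _).trans (add_le_add h1 h2))) ?_
      · congr 1
        unfold nw
        ring
      · linarith
    · have hm0 : 0 < m N := by
        rcases Nat.eq_zero_or_pos (m N) with h | h
        · rw [h] at hmN4
          norm_num at hmN4
        · exact h
      have h1 := hsum (m N) hm0 (by linarith)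
      have h2 := hlB () z hz
      have h3 := ssF_split' hzB hwB
      rw [h3]
      refine le_trans (le_trans (le_of_eq ?_) ((norm_add_le _ _).trans (add_le_add h1 h2))) ?_
      · congr 1
        unfold nw
        ring
      · linarith
    · intro χ
      have hc := XX_cos hy0 hy9 χ.2
      have h1 := GC_lim hN hy0 hy9 χ.2 hmN4 hmN3
      have h2 := hlG χ z hz
      have h3 := HC_split hc hzD' hwD'
      rw [h3]
      have e6 : (1 / 2 - z - (1 / 2 - (m N : ℂ) / N)) * ∫ t in (0:ℝ)..1,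
          fC (2 * Complex.cos χ.1) (1 / 2 - (m N : ℂ) / N +
            (1 / 2 - z - (1 / 2 - (m N : ℂ) / N)) * t) =
          -((z - (m N : ℂ) / N) * ∫ t in (0:ℝ)..1,
            fC (2 * Complex.cos χ.1) (1 / 2 - ((m N : ℂ) / N + (z - (m N : ℂ) / N) * t))) := by
        have e7 : ∀ t : ℝ, fC (2 * Complex.cos χ.1) (1 / 2 - (m N : ℂ) / N +
            (1 / 2 - z - (1 / 2 - (m N : ℂ) / N)) * t) =
            fC (2 * Complex.cos χ.1) (1 / 2 - ((m N : ℂ) / N + (z - (m N : ℂ) / N) * t)) := by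
          intro t
          congr 1
          ring
        simp only [e7]
        ring
      rw [e6]
      rw [← norm_neg] at h2
      refine le_trans (le_trans (le_of_eq ?_) ((norm_add_le _ _).trans (add_le_add h1 h2))) ?_
      · congr 1
        unfold nw
        ring
      · linarith

end Pool.Agent.Y967.CBY
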