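import Pool.Agent.W469.HT.Mwk

/-!
# The window around a general critical point
-/

set_option autoImplicit false

namespace Pool.Agent.Y967.CBY

open Filter Finset Topology Metric
open scoped Real
open Pool.Agent.W711.HT
open Pool.Agent.W469.HT.Mwk

theorem taylorA {Q Q1 Q2 : ℂ → ℂ} {B : Set ℂ} (hB : Convex ℝ B) {A η : ℝ} (hη : 0 ≤ η)
    (h1 : ∀ z ∈ B, HasDerivAt Q (Q1 z) z) (h2 : ∀ z ∈ B, HasDerivAt Q1 (Q2 z) z)
    (h3 : ∀ z ∈ B, ‖Q2 z + A‖ ≤ η) {z₀ : ℂ} (hz₀ : z₀ ∈ B) (h0 : Q1 z₀ = 0) {z : ℂ}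
    (hz : z ∈ B) : ‖Q z - Q z₀ + A / 2 * (z - z₀) ^ 2‖ ≤ η * ‖z - z₀‖ ^ 2 := by
  have g1 : ∀ ζ ∈ B, ‖Q1 ζ + A * (ζ - z₀)‖ ≤ η * ‖ζ - z₀‖ := by
    intro ζ hζ
    have hd : ∀ x ∈ B, HasDerivWithinAt (fun ζ => Q1 ζ + A * (ζ - z₀)) (Q2 x + A) B x := by
      intro x hx
      have e1 : HasDerivAt (fun ζ : ℂ => (A : ℂ) * (ζ - z₀)) (A : ℂ) x := by
        simpa using ((hasDerivAt_id x).sub_const z₀).const_mul (A : ℂ)
      exact ((h2 x hx).add e1).hasDerivWithinAt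
    have := hB.norm_image_sub_le_of_norm_hasDerivWithin_le hd h3 hz₀ hζ
    simpa [h0] using this
  set B' : Set ℂ := B ∩ closedBall z₀ ‖z - z₀‖ with hB'
  have hB'c : Convex ℝ B' := hB.inter (convex_closedBall _ _)
  have hd : ∀ x ∈ B', HasDerivWithinAt (fun ζ => Q ζ - Q z₀ + A / 2 * (ζ - z₀) ^ 2)
      (Q1 x + A * (x - z₀)) B' x := by
    intro x hx
    have e1 : HasDerivAt (fun ζ : ℂ => (A : ℂ) / 2 * (ζ - z₀) ^ 2) ((A : ℂ) * (x - z₀)) x := by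
      have e2 : HasDerivAt (fun ζ : ℂ => (ζ - z₀) ^ 2) (2 * (x - z₀)) x := by
        have e3 := ((hasDerivAt_id x).sub_const z₀).fun_pow 2
        exact e3.congr_deriv (by simp)
      exact (e2.const_mul ((A : ℂ) / 2)).congr_deriv (by ring)
    exact (((h1 x hx.1).sub_const (Q z₀)).add e1).hasDerivWithinAt
  have hbd : ∀ x ∈ B', ‖Q1 x + A * (x - z₀)‖ ≤ η * ‖z - z₀‖ := by
    intro x hx
    refine (g1 x hx.1).trans ?_
    have : ‖x - z₀‖ ≤ ‖z - z₀‖ := by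
      have := hx.2
      rwa [mem_closedBall, dist_eq_norm] at this
    gcongr
  have hz₀' : z₀ ∈ B' := ⟨hz₀, by simp⟩
  have hz' : z ∈ B' := ⟨hz, by rw [mem_closedBall, dist_eq_norm]⟩
  have := hB'c.norm_image_sub_le_of_norm_hasDerivWithin_le hd hbd hz₀' hz'
  simp only [sub_self, zero_pow two_ne_zero, mul_zero, add_zero, sub_zero] at this
  calc ‖Q z - Q z₀ + A / 2 * (z - z₀) ^ 2‖ ≤ η * ‖z - z₀‖ * ‖z - z₀‖ := this
    _ = η * ‖z - z₀‖ ^ 2 := by ring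

theorem reQA {Q Q1 Q2 : ℂ → ℂ} {B : Set ℂ} (hB : Convex ℝ B) {A : ℝ} (hA : 0 < A)
    (h1 : ∀ z ∈ B, HasDerivAt Q (Q1 z) z) (h2 : ∀ z ∈ B, HasDerivAt Q1 (Q2 z) z)
    (h3 : ∀ z ∈ B, ‖Q2 z + A‖ ≤ A / 20) {z₀ : ℂ} (hz₀ : z₀ ∈ B) (h0 : Q1 z₀ = 0) {z : ℂ}
    (hz : z ∈ B) : (Q z).re ≤ (Q z₀).re - 9 / 20 * A * (z.re - z₀.re) ^ 2 +
      11 / 20 * A * (z.im - z₀.im) ^ 2 := by
  have h4 := taylorA hB (by positivity) h1 h2 h3 hz₀ h0 hz
  have h5 := (Complex.abs_re_le_norm _).trans h4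
  have h6 := (abs_le.1 h5).2
  have e1 : (Q z - Q z₀ + A / 2 * (z - z₀) ^ 2).re =
      (Q z).re - (Q z₀).re + A / 2 * ((z.re - z₀.re) ^ 2 - (z.im - z₀.im) ^ 2) := by
    have e2 : ((A : ℂ) / 2 * (z - z₀) ^ 2) = ((A / 2 : ℝ) : ℂ) * (z - z₀) ^ 2 := by push_cast; ring
    rw [e2, Complex.add_re, Complex.sub_re, Complex.re_ofReal_mul, pow_two, Complex.mul_re,
      Complex.sub_re, Complex.sub_im]
    ring
  have e3 : ‖z - z₀‖ ^ 2 = (z.re - z₀.re) ^ 2 + (z.im - z₀.im) ^ 2 := by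
    rw [← Complex.normSq_eq_norm_sq, Complex.normSq_apply, Complex.sub_re, Complex.sub_im]
    ring
  rw [e1, e3] at h6
  nlinarith

theorem windowA {q : ℕ → ℂ → ℂ} {Q Q1 Q2 : ℂ → ℂ} {x₀ A R w : ℝ} {z₀ : ℂ} (hLS : S_LAPSUM)
    (hA : 0 < A) (hx₀ : 1 / 8 ≤ x₀)
    (hw : 0 < w) (hwR : w ≤ R / 2) (hw16 : w ≤ 1 / 16) (hwA : A * w ≤ 4)
    (hq : ∀ᶠ N : ℕ in atTop, DifferentiableOn ℂ (q N) (ball (x₀ : ℂ) R))
    (hu : TendstoUniformlyOn q Q atTop (ball (x₀ : ℂ) R))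
    (dQ : ∀ z ∈ ball (x₀ : ℂ) R, HasDerivAt Q (Q1 z) z)
    (dD : ∀ z ∈ ball (x₀ : ℂ) R, HasDerivAt Q1 (Q2 z) z)
    (dB : ∀ z ∈ ball (x₀ : ℂ) R, ‖Q2 z + A‖ ≤ A / 20)
    (hz₀ : ‖z₀ - x₀‖ ≤ w / 20) (hcr : Q1 z₀ = 0) :
    Tendsto (fun N : ℕ => Real.log ‖∑ d ∈ Ico (⌈(x₀ - w) * N⌉₊) (⌊(x₀ + w) * N⌋₊),
      Complex.exp (N * q N ((d : ℂ) / N))‖ / N) atTop (𝓝 (Q z₀).re) := by
  have hB : Convex ℝ (ball (x₀ : ℂ) R) := convex_ball _ _
  have hz₀B : z₀ ∈ ball (x₀ : ℂ) R := by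
    rw [mem_ball, dist_eq_norm]
    linarith
  have key : ∀ z ∈ ball (x₀ : ℂ) R, (Q z).re ≤ (Q z₀).re -
      9 / 20 * A * (z.re - z₀.re) ^ 2 + 11 / 20 * A * (z.im - z₀.im) ^ 2 :=
    fun z hz => reQA hB hA dQ dD dB hz₀B hcr hz
  have hre : |z₀.re - x₀| ≤ w / 20 := by
    have h1 := (Complex.abs_re_le_norm (z₀ - x₀)).trans hz₀
    have h2 : (z₀ - x₀).re = z₀.re - x₀ := by
      rw [Complex.sub_re, Complex.ofReal_re]
    rwa [h2] at h1
  have him : |z₀.im| ≤ w / 20 := by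
    have h1 := (Complex.abs_im_le_norm (z₀ - x₀)).trans hz₀
    have h2 : (z₀ - x₀).im = z₀.im := by
      rw [Complex.sub_im, Complex.ofReal_im, sub_zero]
    rwa [h2] at h1
  rw [abs_le] at hre him
  have hpi := Real.pi_gt_three
  have hmem : ∀ x y : ℝ, x₀ - w ≤ x → x ≤ x₀ + w → |y| ≤ w / 2 →
      (x : ℂ) + y * Complex.I ∈ ball (x₀ : ℂ) R := by
    intro x y h1 h2 h3
    rw [mem_ball, dist_eq_norm]
    have h4 := Complex.norm_le_abs_re_add_abs_im ((x : ℂ) + y * Complex.I - x₀)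
    have h5 : ((x : ℂ) + y * Complex.I - x₀).re = x - x₀ := by
      simp
    have h6 : ((x : ℂ) + y * Complex.I - x₀).im = y := by
      simp
    rw [h5, h6] at h4
    have h7 : |x - x₀| ≤ w := abs_le.2 ⟨by linarith, by linarith⟩
    linarith
  have hre' : ∀ x y : ℝ, ((x : ℂ) + y * Complex.I).re = x := by
    intro x y
    simp
  have him' : ∀ x y : ℝ, ((x : ℂ) + y * Complex.I).im = y := by
    intro x y
    simp
  have hderiv : ∀ z ∈ ball (x₀ : ℂ) R, deriv Q z = Q1 z :=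
    fun z hz => (dQ z hz).deriv
  refine hLS q Q (ball (x₀ : ℂ) R) (x₀ - w) (x₀ + w) (w / 2) z₀
    (fun N => ⌈(x₀ - w) * N⌉₊) (fun N => ⌊(x₀ + w) * N⌋₊) isOpen_ball hq ?_ hu
    hmem (by linarith) ?_ ?_ (by linarith) (by linarith) (abs_lt.2 ⟨by linarith, by linarith⟩)
    ((hderiv z₀ hz₀B).trans hcr) ?_ ?_ ?_ ?_
  · intro z hz
    exact (dQ z hz).differentiableAt.differentiableWithinAt
  · have hc : (0 : ℝ) ≤ x₀ - w := by linarith
    exact (tendsto_nat_ceil_mul_div_atTop hc).comp tendsto_natCast_atTop_atTop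
  · have hc : (0 : ℝ) ≤ x₀ + w := by linarith
    exact (tendsto_nat_floor_mul_div_atTop hc).comp tendsto_natCast_atTop_atTop
  · have h1 : deriv Q =ᶠ[𝓝 z₀] Q1 := by
      filter_upwards [isOpen_ball.mem_nhds hz₀B] with z hz
      exact hderiv z hz
    rw [h1.deriv_eq, (dD z₀ hz₀B).deriv]
    have h2 := (Complex.abs_re_le_norm _).trans (dB z₀ hz₀B)
    have h3 : (Q2 z₀ + A).re = (Q2 z₀).re + A := by
      rw [Complex.add_re, Complex.ofReal_re]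
    rw [h3] at h2
    have h4 := (abs_le.1 h2).2
    linarith
  · intro x h1 h2 h3
    have h4 := key _ (hmem x z₀.im h1 h2 (abs_le.2 ⟨by linarith, by linarith⟩))
    rw [hre', him', sub_self] at h4
    have h5 : 0 < (x - z₀.re) ^ 2 := by
      have : x - z₀.re ≠ 0 := sub_ne_zero.2 h3
      positivity
    have h6 : 0 < 9 / 20 * A * (x - z₀.re) ^ 2 := by positivity
    linarith
  · intro y hy
    have hy' := abs_le.1 hy
    have h1 := key _ (hmem (x₀ - w) y le_rfl (by linarith) hy)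
    have h2 := key _ (hmem (x₀ + w) y (by linarith) le_rfl hy)
    rw [hre', him'] at h1 h2
    have h3 : (19 / 20 * w) ^ 2 ≤ (x₀ - w - z₀.re) ^ 2 := by
      rw [sq_le_sq, abs_of_pos (by positivity)]
      rw [le_abs]
      right
      linarith
    have h4 : (19 / 20 * w) ^ 2 ≤ (x₀ + w - z₀.re) ^ 2 := by
      rw [sq_le_sq, abs_of_pos (by positivity)]
      rw [le_abs]
      left
      linarith
    have h5 : (y - z₀.im) ^ 2 ≤ (11 / 20 * w) ^ 2 := by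
      rw [sq_le_sq, abs_of_pos (show 0 < 11 / 20 * w by positivity), abs_le]
      constructor <;> linarith
    have h6 : 9 / 20 * A * (19 / 20 * w) ^ 2 ≤ 9 / 20 * A * (x₀ - w - z₀.re) ^ 2 := by gcongr
    have h7 : 9 / 20 * A * (19 / 20 * w) ^ 2 ≤ 9 / 20 * A * (x₀ + w - z₀.re) ^ 2 := by gcongr
    have h8 : 11 / 20 * A * (y - z₀.im) ^ 2 ≤ 11 / 20 * A * (11 / 20 * w) ^ 2 := by gcongr
    have h9 : 0 < A * w ^ 2 := by positivity
    have h10 : 11 / 20 * A * (11 / 20 * w) ^ 2 < 9 / 20 * A * (19 / 20 * w) ^ 2 := by nlinarith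
    constructor <;> linarith
  · intro x h1 h2
    have hh : |w / 2| ≤ w / 2 := by rw [abs_of_pos (by positivity)]
    have hh' : |-(w / 2)| ≤ w / 2 := by rw [abs_neg, abs_of_pos (by positivity)]
    have h3 := key _ (hmem x (w / 2) h1 h2 hh)
    have h4 := key _ (hmem x (-(w / 2)) h1 h2 hh')
    rw [hre', him'] at h3 h4
    have e1 : (x : ℂ) - ((w / 2 : ℝ) : ℂ) * Complex.I = (x : ℂ) + ((-(w / 2) : ℝ) : ℂ) *
        Complex.I := by
      push_cast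
      ring
    rw [e1]
    have h5 : (w / 2 - z₀.im) ^ 2 ≤ (11 / 20 * w) ^ 2 := by
      rw [sq_le_sq, abs_of_pos (show 0 < 11 / 20 * w by positivity), abs_le]
      constructor <;> linarith
    have h6 : (-(w / 2) - z₀.im) ^ 2 ≤ (11 / 20 * w) ^ 2 := by
      rw [sq_le_sq, abs_of_pos (show 0 < 11 / 20 * w by positivity), abs_le]
      constructor <;> linarith
    have h7 : 11 / 20 * A * (w / 2 - z₀.im) ^ 2 ≤ 11 / 20 * A * (11 / 20 * w) ^ 2 := by gcongr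
    have h8 : 11 / 20 * A * (-(w / 2) - z₀.im) ^ 2 ≤ 11 / 20 * A * (11 / 20 * w) ^ 2 := by gcongr
    have h9 : 0 ≤ 9 / 20 * A * (x - z₀.re) ^ 2 := by positivity
    have h10 : 11 / 20 * A * (11 / 20 * w) ^ 2 < 2 * π * (w / 2) := by
      have e3 : 11 / 20 * A * (11 / 20 * w) ^ 2 = 1331 / 8000 * (A * w) * w := by ring
      rw [e3]
      have : 1331 / 8000 * (A * w) * w ≤ 1331 / 8000 * 4 * w := by gcongr
      nlinarith
    constructor <;> linarith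

end Pool.Agent.Y967.CBY
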