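import Pool.Agent.Y967.CB.Mwk3A
import Pool.Agent.Y967.CBY.WinY

/-!
# The second derivative of the potential at `(0, 0, i y₀)`
-/

set_option autoImplicit false

namespace Pool.Agent.Y967.CBY

open Filter Finset Topology Metric
open scoped Real
open Pool.Agent.W711.HT
open Pool.Agent.Y967.CB.MW (QQ3 D13 D23)

theorem near3Y {x₀ : ℝ} (y₀ : ℝ) (hx : 1 / 8 ≤ x₀) (hx' : x₀ ≤ 1 / 4) : ∃ A R : ℝ, 0 < A ∧ 0 < R ∧
    ∀ z ψ ψ' χ : ℂ, ‖z - x₀‖ < R → ‖ψ‖ < R → ‖ψ'‖ < R → ‖χ - y₀ * Complex.I‖ < R →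
    2 * Complex.cos ψ + 2 * Complex.cos (2 * π * z) ∈ Complex.slitPlane ∧
    2 * Complex.cos ψ' + 2 * Complex.cos (2 * π * z) ∈ Complex.slitPlane ∧
    2 * Complex.cos χ - 2 * Complex.cos (2 * π * z) ∈ Complex.slitPlane ∧
    2 * Complex.sin (π * z) ∈ Complex.slitPlane ∧
    ‖D23 (z, ψ, ψ', χ) + A‖ ≤ A / 20 := by
  have hpi := Real.pi_pos
  obtain ⟨S, hS⟩ : ∃ S : ℝ, S = Real.sin (2 * π * x₀) := ⟨_, rfl⟩
  obtain ⟨C, hC⟩ : ∃ C : ℝ, C = Real.cos (2 * π * x₀) := ⟨_, rfl⟩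
  obtain ⟨K, hK⟩ : ∃ K : ℝ, K = Real.cosh y₀ := ⟨_, rfl⟩
  obtain ⟨s, hs⟩ : ∃ s : ℝ, s = Real.sin (π * x₀) := ⟨_, rfl⟩
  obtain ⟨k, hk⟩ : ∃ k : ℝ, k = Real.cos (π * x₀) := ⟨_, rfl⟩
  have hS0 : 0 < S := by
    rw [hS]
    apply Real.sin_pos_of_pos_of_lt_pi
    · positivity
    · nlinarith
  have hC0 : 0 ≤ C := by
    rw [hC]
    apply Real.cos_nonneg_of_mem_Icc
    constructor <;> nlinarith
  have hC1 : C < 1 := by
    rw [hC]
    have h1 := Real.sin_sq_add_cos_sq (2 * π * x₀)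
    rw [← hS] at h1
    nlinarith [Real.cos_le_one (2 * π * x₀)]
  have hK1 : 1 ≤ K := by rw [hK]; exact Real.one_le_cosh _
  have hs0 : 0 < s := by
    rw [hs]
    apply Real.sin_pos_of_pos_of_lt_pi
    · positivity
    · nlinarith
  have hk0 : 0 ≤ k := by
    rw [hk]
    apply Real.cos_nonneg_of_mem_Icc
    constructor <;> nlinarith
  have eS : Complex.sin (2 * π * x₀) = (S : ℂ) := by rw [hS]; push_cast; rfl
  have eC : Complex.cos (2 * π * x₀) = (C : ℂ) := by rw [hC]; push_cast; rfl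
  have eK : Complex.cos (y₀ * Complex.I) = (K : ℂ) := by
    rw [hK, Complex.cos_mul_I, Complex.ofReal_cosh]
  have es : Complex.sin (π * x₀) = (s : ℂ) := by rw [hs]; push_cast; rfl
  have ek : Complex.cos (π * x₀) = (k : ℂ) := by rw [hk]; push_cast; rfl
  obtain ⟨A, hA⟩ : ∃ A : ℝ, A = 4 * π * S / (2 + 2 * C) + 4 * π * S / (2 + 2 * C) +
    4 * π * S / (2 * K - 2 * C) + 2 * (2 * π * k / (2 * s)) := ⟨_, rfl⟩
  have hKC : 0 < 2 * K - 2 * C := by linarith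
  have hA0 : 0 < A := by
    rw [hA]
    have : 0 ≤ 2 * (2 * π * k / (2 * s)) := by positivity
    have : 0 < 4 * π * S / (2 + 2 * C) := by positivity
    have : 0 < 4 * π * S / (2 * K - 2 * C) := by positivity
    linarith
  let p₀ : ℂ × ℂ × ℂ × ℂ := ((x₀ : ℂ), 0, 0, (y₀ : ℂ) * Complex.I)
  have c1 : ContinuousAt (fun p : ℂ × ℂ × ℂ × ℂ =>
      2 * Complex.cos p.2.1 + 2 * Complex.cos (2 * π * p.1)) p₀ := by fun_prop
  have c2 : ContinuousAt (fun p : ℂ × ℂ × ℂ × ℂ =>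
      2 * Complex.cos p.2.2.1 + 2 * Complex.cos (2 * π * p.1)) p₀ := by fun_prop
  have c2' : ContinuousAt (fun p : ℂ × ℂ × ℂ × ℂ =>
      2 * Complex.cos p.2.2.2 - 2 * Complex.cos (2 * π * p.1)) p₀ := by fun_prop
  have c3 : ContinuousAt (fun p : ℂ × ℂ × ℂ × ℂ => 2 * Complex.sin (π * p.1)) p₀ := by fun_prop
  have v1 : 2 * Complex.cos p₀.2.1 + 2 * Complex.cos (2 * π * p₀.1) = ((2 + 2 * C : ℝ) : ℂ) := by
    show 2 * Complex.cos 0 + 2 * Complex.cos (2 * π * x₀) = _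
    rw [eC, Complex.cos_zero]
    push_cast
    ring
  have v2 : 2 * Complex.cos p₀.2.2.1 + 2 * Complex.cos (2 * π * p₀.1) =
      ((2 + 2 * C : ℝ) : ℂ) := by
    show 2 * Complex.cos 0 + 2 * Complex.cos (2 * π * x₀) = _
    rw [eC, Complex.cos_zero]
    push_cast
    ring
  have v2' : 2 * Complex.cos p₀.2.2.2 - 2 * Complex.cos (2 * π * p₀.1) =
      ((2 * K - 2 * C : ℝ) : ℂ) := by
    show 2 * Complex.cos (y₀ * Complex.I) - 2 * Complex.cos (2 * π * x₀) = _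
    rw [eC, eK]
    push_cast
    ring
  have v3 : 2 * Complex.sin (π * p₀.1) = ((2 * s : ℝ) : ℂ) := by
    show 2 * Complex.sin (π * x₀) = _
    rw [es]
    push_cast
    ring
  have s1 : ((2 + 2 * C : ℝ) : ℂ) ∈ Complex.slitPlane := by
    rw [Complex.ofReal_mem_slitPlane]
    linarith
  have s2 : ((2 * K - 2 * C : ℝ) : ℂ) ∈ Complex.slitPlane := by
    rw [Complex.ofReal_mem_slitPlane]
    exact hKC
  have s3 : ((2 * s : ℝ) : ℂ) ∈ Complex.slitPlane := by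
    rw [Complex.ofReal_mem_slitPlane]
    positivity
  have e1 : ∀ᶠ p in 𝓝 p₀, 2 * Complex.cos p.2.1 + 2 * Complex.cos (2 * π * p.1) ∈
      Complex.slitPlane := by
    refine c1.eventually_mem ?_
    rw [v1]
    exact Complex.isOpen_slitPlane.mem_nhds s1
  have e2 : ∀ᶠ p in 𝓝 p₀, 2 * Complex.cos p.2.2.1 + 2 * Complex.cos (2 * π * p.1) ∈
      Complex.slitPlane := by
    refine c2.eventually_mem ?_
    rw [v2]
    exact Complex.isOpen_slitPlane.mem_nhds s1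
  have e2' : ∀ᶠ p in 𝓝 p₀, 2 * Complex.cos p.2.2.2 - 2 * Complex.cos (2 * π * p.1) ∈
      Complex.slitPlane := by
    refine c2'.eventually_mem ?_
    rw [v2']
    exact Complex.isOpen_slitPlane.mem_nhds s2
  have e3 : ∀ᶠ p in 𝓝 p₀, 2 * Complex.sin (π * p.1) ∈ Complex.slitPlane := by
    refine c3.eventually_mem ?_
    rw [v3]
    exact Complex.isOpen_slitPlane.mem_nhds s3
  have c4 : ContinuousAt D23 p₀ := by
    unfold D23
    refine ContinuousAt.sub (ContinuousAt.sub (ContinuousAt.add (ContinuousAt.div (by fun_prop) c1 ?_)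
      (ContinuousAt.div (by fun_prop) c2 ?_)) (ContinuousAt.div (by fun_prop) c2' ?_))
      (ContinuousAt.mul continuousAt_const (ContinuousAt.div (by fun_prop) c3 ?_))
    · rw [v1]; exact Complex.slitPlane_ne_zero s1
    · rw [v2]; exact Complex.slitPlane_ne_zero s1
    · rw [v2']; exact Complex.slitPlane_ne_zero s2
    · rw [v3]; exact Complex.slitPlane_ne_zero s3
  have v4 : D23 p₀ + A = 0 := by
    have e : D23 p₀ = -(4 * π * Complex.sin (2 * π * x₀)) / (2 * Complex.cos p₀.2.1 +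
      2 * Complex.cos (2 * π * p₀.1)) + -(4 * π * Complex.sin (2 * π * x₀)) /
      (2 * Complex.cos p₀.2.2.1 + 2 * Complex.cos (2 * π * p₀.1)) -
      (4 * π * Complex.sin (2 * π * x₀)) /
      (2 * Complex.cos p₀.2.2.2 - 2 * Complex.cos (2 * π * p₀.1)) -
      2 * ((2 * π * Complex.cos (π * x₀)) / (2 * Complex.sin (π * p₀.1))) := rfl
    rw [e, v1, v2', v3, eS, ek, hA]
    push_cast
    ring
  have e4 : ∀ᶠ p in 𝓝 p₀, ‖D23 p + A‖ ≤ A / 20 := by
    have c5 : ContinuousAt (fun p => ‖D23 p + A‖) p₀ := (c4.add continuousAt_const).norm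
    refine c5.eventually_le_const ?_
    show ‖D23 p₀ + A‖ < _
    rw [v4, norm_zero]
    positivity
  obtain ⟨R, hR, h⟩ := Metric.eventually_nhds_iff.1 (e1.and (e2.and (e2'.and (e3.and e4))))
  refine ⟨A, R, hA0, hR, fun z ψ ψ' χ hz hψ hψ' hχ => ?_⟩
  have hd : dist (z, ψ, ψ', χ) p₀ < R := by
    rw [Prod.dist_eq, Prod.dist_eq, Prod.dist_eq, dist_eq_norm, dist_zero_right, dist_zero_right,
      dist_eq_norm]
    exact max_lt hz (max_lt hψ (max_lt hψ' hχ))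
  obtain ⟨a1, a2, a2', a3, a4⟩ := h hd
  exact ⟨a1, a2, a2', a3, a4⟩

end Pool.Agent.Y967.CBY
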