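import Pool.Agent.Y967.CBY.NearY
import Pool.Agent.Y967.CBY.IntY2

/-!
# The kernel along a sequence
-/

set_option autoImplicit false

namespace Pool.Agent.Y967.CBY

open Filter Finset Topology Metric
open scoped Real
open Pool.Agent.W711.HT
open Pool.Agent.W366.HT (fB)
open Pool.Agent.W469.HT.Mwk (absorb)
open Pool.Agent.Y472 (Tg kh)
open Pool.Agent.Y967.CB.MW (QQ3 D13 D23 hasDerivAt_D13)

lemma QQ_derivY {ψ ψ' χ z : ℂ} (h1 : 2 * Complex.cos ψ ∈ CC) (h2 : 2 * Complex.cos ψ' ∈ CC)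
    (h3 : 2 * Complex.cos χ ∈ CC) (hz : z ∈ DD) (hz' : 1 / 2 - z ∈ DD)
    (hzB : z ∈ ball (1 / 4 : ℂ) (1 / 10)) :
    HasDerivAt (QQ3 ψ ψ' χ) (D13 ψ ψ' χ z) z := by
  have a1 : HasDerivAt (fun z => rrF z ψ) (fC (2 * Complex.cos ψ) z) z := by
    refine (HC_deriv h1 hz).congr_of_eventuallyEq (Eventually.of_forall fun w => ?_)
    exact rrF_eq w ψ
  have a2 : HasDerivAt (fun z => rrF z ψ') (fC (2 * Complex.cos ψ') z) z := by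
    refine (HC_deriv h2 hz).congr_of_eventuallyEq (Eventually.of_forall fun w => ?_)
    exact rrF_eq w ψ'
  have a3 : HasDerivAt (fun z => rrF z χ) (fC (2 * Complex.cos χ) (1 / 2 - z)) (1 / 2 - z) := by
    refine (HC_deriv h3 hz').congr_of_eventuallyEq (Eventually.of_forall fun w => ?_)
    exact rrF_eq w χ
  have a4 : HasDerivAt (fun z : ℂ => 1 / 2 - z) (-1) z := by
    exact (hasDerivAt_id z).const_sub (1 / 2)
  have a5 := HasDerivAt.comp z a3 a4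
  have e1 : Complex.cos (2 * π * (1 / 2 - z)) = -Complex.cos (2 * π * z) := by
    have e2 : 2 * (π : ℂ) * (1 / 2 - z) = π - 2 * π * z := by ring
    rw [e2, Complex.cos_pi_sub]
  have a6 : HasDerivAt (fun z : ℂ => rrF (1 / 2 - z) χ)
      (-Complex.log (2 * Complex.cos χ - 2 * Complex.cos (2 * π * z))) z := by
    refine a5.congr_deriv ?_
    unfold fC arc
    rw [e1]
    rw [mul_neg_one, mul_neg, ← sub_eq_add_neg]
  refine (((a1.add a2).add a6).sub ((ssF_deriv hzB).const_mul 2)).congr_deriv ?_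
  unfold D13 fC arc fB
  ring

/-- the limit of the exponents -/
theorem unifY {δ₀ y₀ ρ : ℝ} (hδ1 : 3 / 16 ≤ δ₀) (hδ2 : δ₀ ≤ 1 / 4) (hρ : ρ < 1 / 200)
    (h0 : 0 < y₀) (h9 : y₀ ≤ 9 / 5)
    {r : ℕ → {c : ℂ // c ∈ CC} → ℂ → ℂ} {sn : ℕ → ℂ → ℂ} {τg : ℕ → {χ : ℂ // χ ∈ XX y₀} → ℂ → ℂ}
    (hU : ∀ ε : ℝ, 0 < ε → ∀ᶠ N : ℕ in atTop, ∀ z ∈ ball (δ₀ : ℂ) ρ,
      (∀ c, ‖r N c z - HC c.1 z‖ ≤ ε) ∧ ‖sn N z - ssF z‖ ≤ ε ∧
      ∀ χ, ‖τg N χ z - HC (2 * Complex.cos χ.1) (1 / 2 - z)‖ ≤ ε)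
    {ψ ψ' χ : ℕ → ℂ} {φ φ' η : ℂ} (hψ : ∀ N, 2 * Complex.cos (ψ N) ∈ CC)
    (hψ' : ∀ N, 2 * Complex.cos (ψ' N) ∈ CC) (hχ : ∀ N, χ N ∈ XX y₀)
    (hφ : 2 * Complex.cos φ ∈ CC) (hφ' : 2 * Complex.cos φ' ∈ CC) (hη : η ∈ XX y₀)
    (htφ : Tendsto ψ atTop (𝓝 φ)) (htφ' : Tendsto ψ' atTop (𝓝 φ'))
    (htη : Tendsto χ atTop (𝓝 η)) :
    TendstoUniformlyOn (fun N z => r N ⟨_, hψ N⟩ z + r N ⟨_, hψ' N⟩ z + τg N ⟨_, hχ N⟩ z -
      2 * sn N z) (QQ3 φ φ' η) atTop (ball (δ₀ : ℂ) ρ) := by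
  rw [Metric.tendstoUniformlyOn_iff]
  intro ε hε
  have hcos : ∀ {u : ℕ → ℂ} {v : ℂ}, Tendsto u atTop (𝓝 v) →
      ∀ᶠ N : ℕ in atTop, ‖2 * Complex.cos (u N) - 2 * Complex.cos v‖ < ε / 16 := by
    intro u v huv
    have hc : Continuous fun z : ℂ => 2 * Complex.cos z := by fun_prop
    have h1 := (hc.tendsto v).comp huv
    have h2 := (Metric.tendsto_nhds.1 h1) (ε / 16) (by positivity)
    filter_upwards [h2] with N h3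
    rwa [dist_eq_norm] at h3
  filter_upwards [hcos htφ, hcos htφ', hcos htη, hU (ε / 16) (by positivity)]
    with N f1 f2 f3 f4 z hz
  have hz' : z ∈ ball (δ₀ : ℂ) (1 / 200) := ball_subset_ball hρ.le hz
  have m1 : z ∈ DD := by
    have := shY hδ1 hδ2 hz' le_rfl (by norm_num : (0 : ℝ) ≤ 1 / 1000)
    simpa using this
  have m2 : 1 / 2 - z ∈ DD := by
    have := rfY hδ1 hδ2 hz' le_rfl (by norm_num : (0 : ℝ) ≤ 1 / 1000)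
    simpa using this
  obtain ⟨g1, g2, g3⟩ := f4 z hz
  have k1 := g1 ⟨_, hψ N⟩
  have k2 := g1 ⟨_, hψ' N⟩
  have k3 := g3 ⟨_, hχ N⟩
  simp only at k1 k2 k3
  have l1 := (HC_lipc (hψ N) hφ m1).trans f1.le
  have l2 := (HC_lipc (hψ' N) hφ' m1).trans f2.le
  have l3 := (HC_lipc (XX_cos h0 h9 (hχ N)) (XX_cos h0 h9 hη) m2).trans f3.le
  rw [dist_eq_norm]
  have e : QQ3 φ φ' η z - (r N ⟨_, hψ N⟩ z + r N ⟨_, hψ' N⟩ z + τg N ⟨_, hχ N⟩ z -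
      2 * sn N z) =
      -(HC (2 * Complex.cos (ψ N)) z - HC (2 * Complex.cos φ) z) +
      -(HC (2 * Complex.cos (ψ' N)) z - HC (2 * Complex.cos φ') z) +
      -(HC (2 * Complex.cos (χ N)) (1 / 2 - z) - HC (2 * Complex.cos η) (1 / 2 - z)) +
      -(r N ⟨_, hψ N⟩ z - HC (2 * Complex.cos (ψ N)) z) +
      -(r N ⟨_, hψ' N⟩ z - HC (2 * Complex.cos (ψ' N)) z) +
      -(τg N ⟨_, hχ N⟩ z - HC (2 * Complex.cos (χ N)) (1 / 2 - z)) +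
      (2 * (sn N z - ssF z)) := by
    unfold QQ3
    rw [rrF_eq, rrF_eq, rrF_eq]
    ring
  rw [e]
  refine (norm_add_le _ _).trans_lt ?_
  have t1 := norm_add_le (-(HC (2 * Complex.cos (ψ N)) z - HC (2 * Complex.cos φ) z) +
      -(HC (2 * Complex.cos (ψ' N)) z - HC (2 * Complex.cos φ') z) +
      -(HC (2 * Complex.cos (χ N)) (1 / 2 - z) - HC (2 * Complex.cos η) (1 / 2 - z)) +
      -(r N ⟨_, hψ N⟩ z - HC (2 * Complex.cos (ψ N)) z) +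
      -(r N ⟨_, hψ' N⟩ z - HC (2 * Complex.cos (ψ' N)) z))
      (-(τg N ⟨_, hχ N⟩ z - HC (2 * Complex.cos (χ N)) (1 / 2 - z)))
  have t2 := norm_add_le (-(HC (2 * Complex.cos (ψ N)) z - HC (2 * Complex.cos φ) z) +
      -(HC (2 * Complex.cos (ψ' N)) z - HC (2 * Complex.cos φ') z) +
      -(HC (2 * Complex.cos (χ N)) (1 / 2 - z) - HC (2 * Complex.cos η) (1 / 2 - z)) +
      -(r N ⟨_, hψ N⟩ z - HC (2 * Complex.cos (ψ N)) z))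
      (-(r N ⟨_, hψ' N⟩ z - HC (2 * Complex.cos (ψ' N)) z))
  have t3 := norm_add_le (-(HC (2 * Complex.cos (ψ N)) z - HC (2 * Complex.cos φ) z) +
      -(HC (2 * Complex.cos (ψ' N)) z - HC (2 * Complex.cos φ') z) +
      -(HC (2 * Complex.cos (χ N)) (1 / 2 - z) - HC (2 * Complex.cos η) (1 / 2 - z)))
      (-(r N ⟨_, hψ N⟩ z - HC (2 * Complex.cos (ψ N)) z))
  have t4 := norm_add_le (-(HC (2 * Complex.cos (ψ N)) z - HC (2 * Complex.cos φ) z) +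
      -(HC (2 * Complex.cos (ψ' N)) z - HC (2 * Complex.cos φ') z))
      (-(HC (2 * Complex.cos (χ N)) (1 / 2 - z) - HC (2 * Complex.cos η) (1 / 2 - z)))
  have t5 := norm_add_le (-(HC (2 * Complex.cos (ψ N)) z - HC (2 * Complex.cos φ) z))
      (-(HC (2 * Complex.cos (ψ' N)) z - HC (2 * Complex.cos φ') z))
  rw [norm_neg] at t1 t2 t3 t4
  rw [norm_neg, norm_neg] at t5
  have t6 : ‖2 * (sn N z - ssF z)‖ = 2 * ‖sn N z - ssF z‖ := by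
    rw [norm_mul]
    norm_num
  rw [t6]
  linarith

/-- the kernel along a sequence -/
theorem seqY {δ₀ y₀ ρ A R w κ τ E : ℝ} (hδ1 : 3 / 16 ≤ δ₀) (hδ2 : δ₀ ≤ 1 / 4)
    (hρ : ρ < 1 / 200) (h0 : 0 < y₀) (h9 : y₀ ≤ 9 / 5) (hLS : S_LAPSUM)
    (hA : 0 < A) (hρR : R < ρ) (hw : 0 < w) (hwR : w ≤ R / 2) (hw16 : w ≤ 1 / 16)
    (hwA : A * w ≤ 4)
    {r : ℕ → {c : ℂ // c ∈ CC} → ℂ → ℂ} {sn : ℕ → ℂ → ℂ} {τg : ℕ → {χ : ℂ // χ ∈ XX y₀} → ℂ → ℂ}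
    (hr : ∀ᶠ N : ℕ in atTop, ∀ c, DifferentiableOn ℂ (r N c) (ball (δ₀ : ℂ) ρ))
    (hs : ∀ᶠ N : ℕ in atTop, DifferentiableOn ℂ (sn N) (ball (δ₀ : ℂ) ρ))
    (hg : ∀ᶠ N : ℕ in atTop, ∀ χ, DifferentiableOn ℂ (τg N χ) (ball (δ₀ : ℂ) ρ))
    (hE : ∀ᶠ N : ℕ in atTop, ∀ d : ℕ, |(d : ℝ) / N - δ₀| < ρ →
      (∀ (ψ : ℂ) (h : 2 * Complex.cos ψ ∈ CC),
        Rp N d ψ = Complex.exp (N * r N ⟨2 * Complex.cos ψ, h⟩ ((d : ℂ) / N))) ∧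
      (Sd N d : ℂ) = Complex.exp (N * sn N ((d : ℂ) / N)) ∧
      ∀ χ : {χ : ℂ // χ ∈ XX y₀}, Tg N d χ.1 = Complex.exp (N * τg N χ ((d : ℂ) / N)))
    (hU : ∀ ε : ℝ, 0 < ε → ∀ᶠ N : ℕ in atTop, ∀ z ∈ ball (δ₀ : ℂ) ρ,
      (∀ c, ‖r N c z - HC c.1 z‖ ≤ ε) ∧ ‖sn N z - ssF z‖ ≤ ε ∧
      ∀ χ, ‖τg N χ z - HC (2 * Complex.cos χ.1) (1 / 2 - z)‖ ≤ ε)
    (hκ : 0 < κ)
    (hF : ∀ᶠ N : ℕ in atTop, ∀ d ≤ (N - 1) / 2, w / 2 ≤ |(d : ℝ) / N - δ₀| →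
      ∀ ψ ψ' χ : ℂ, |ψ.re| ≤ π → |ψ.im| ≤ τ → |ψ'.re| ≤ π → |ψ'.im| ≤ τ → |χ.re| ≤ π →
      |χ.im - y₀| ≤ τ → ‖Rp N d ψ * Rp N d ψ' * Tg N d χ / (Sd N d : ℂ) ^ 2‖ ≤
        Real.exp (N * (E - κ)))
    {ψ ψ' χ : ℕ → ℂ} {φ φ' η z₀ : ℂ} (hψ : ∀ N, 2 * Complex.cos (ψ N) ∈ CC)
    (hψ' : ∀ N, 2 * Complex.cos (ψ' N) ∈ CC) (hχ : ∀ N, χ N ∈ XX y₀)
    (hφ : 2 * Complex.cos φ ∈ CC) (hφ' : 2 * Complex.cos φ' ∈ CC) (hη : η ∈ XX y₀)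
    (hQ2 : ∀ z ∈ ball (δ₀ : ℂ) ρ, HasDerivAt (D13 φ φ' η) (D23 (z, φ, φ', η)) z ∧
      ‖D23 (z, φ, φ', η) + A‖ ≤ A / 20)
    (hy : ∀ N, |(ψ N).re| ≤ π ∧ |(ψ N).im| ≤ τ) (hy' : ∀ N, |(ψ' N).re| ≤ π ∧ |(ψ' N).im| ≤ τ)
    (hyχ : ∀ N, |(χ N).re| ≤ π ∧ |(χ N).im - y₀| ≤ τ)
    (htφ : Tendsto ψ atTop (𝓝 φ))
    (htφ' : Tendsto ψ' atTop (𝓝 φ')) (htη : Tendsto χ atTop (𝓝 η))
    (hz₀ : ‖z₀ - δ₀‖ ≤ w / 20) (hcr : D13 φ φ' η z₀ = 0)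
    (hL0 : 0 < (QQ3 φ φ' η z₀).re) (hL : E - κ / 2 ≤ (QQ3 φ φ' η z₀).re) :
    Tendsto (fun N : ℕ => Real.log ‖kh N (ψ N) (ψ' N) (χ N)‖ / N) atTop
      (𝓝 (QQ3 φ φ' η z₀).re) := by
  have hsub : ball (δ₀ : ℂ) R ⊆ ball (δ₀ : ℂ) ρ := ball_subset_ball hρR.le
  have hwin := windowA (q := fun N z => r N ⟨_, hψ N⟩ z + r N ⟨_, hψ' N⟩ z +
      τg N ⟨_, hχ N⟩ z - 2 * sn N z) (Q := QQ3 φ φ' η) (Q1 := D13 φ φ' η)
      (Q2 := fun z => D23 (z, φ, φ', η)) (x₀ := δ₀) (A := A)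
      (R := R) (z₀ := z₀) hLS hA (by linarith) hw hwR hw16 hwA (by
        filter_upwards [hr, hg, hs] with N h1 h1' h2
        exact ((((h1 _).add (h1 _)).add (h1' _)).sub (h2.const_mul 2)).mono hsub)
      ((unifY hδ1 hδ2 hρ h0 h9 hU hψ hψ' hχ hφ hφ' hη htφ htφ' htη).mono hsub)
      (fun z hz => by
        have hz' : z ∈ ball (δ₀ : ℂ) (1 / 200) := ball_subset_ball hρ.le (hsub hz)
        have m1 : z ∈ DD := by
          have := shY hδ1 hδ2 hz' le_rfl (by norm_num : (0 : ℝ) ≤ 1 / 1000)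
          simpa using this
        have m2 : 1 / 2 - z ∈ DD := by
          have := rfY hδ1 hδ2 hz' le_rfl (by norm_num : (0 : ℝ) ≤ 1 / 1000)
          simpa using this
        have m3 : z ∈ ball (1 / 4 : ℂ) (1 / 10) := by
          have := shB hδ1 hδ2 hz' le_rfl (by norm_num : (0 : ℝ) ≤ 1 / 1000)
          simpa using this
        exact QQ_derivY hφ hφ' (XX_cos h0 h9 hη) m1 m2 m3)
      (fun z hz => (hQ2 z (hsub hz)).1)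
      (fun z hz => (hQ2 z (hsub hz)).2)
      hz₀ hcr
  set W : ℕ → ℂ := fun N => ∑ d ∈ Ico (⌈(δ₀ - w) * N⌉₊) (⌊(δ₀ + w) * N⌋₊),
      Complex.exp (N * (r N ⟨_, hψ N⟩ ((d : ℂ) / N) + r N ⟨_, hψ' N⟩ ((d : ℂ) / N) +
        τg N ⟨_, hχ N⟩ ((d : ℂ) / N) - 2 * sn N ((d : ℂ) / N))) with hW
  have hIsub : ∀ᶠ N : ℕ in atTop, Ico (⌈(δ₀ - w) * N⌉₊) (⌊(δ₀ + w) * N⌋₊) ⊆
      range ((N - 1) / 2 + 1) := by
    filter_upwards [eventually_ge_atTop 16] with N hN d hd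
    rw [Finset.mem_Ico] at hd
    rw [Finset.mem_range]
    have h1 : (d : ℝ) < (δ₀ + w) * N := Nat.lt_of_lt_floor hd.2
    have hN' : (16 : ℝ) ≤ N := by exact_mod_cast hN
    have h2 : (16 : ℝ) * d < 5 * N := by nlinarith
    have h3 : 16 * d < 5 * N := by exact_mod_cast h2
    omega
  -- the window is the part of the kernel
  have hWeq : ∀ᶠ N : ℕ in atTop, W N =
      ∑ d ∈ Ico (⌈(δ₀ - w) * N⌉₊) (⌊(δ₀ + w) * N⌋₊),
        Rp N d (ψ N) * Rp N d (ψ' N) * Tg N d (χ N) / (Sd N d : ℂ) ^ 2 := by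
    filter_upwards [hE, eventually_gt_atTop 0] with N h1 h2
    have hN : (0 : ℝ) < N := by exact_mod_cast h2
    rw [hW]
    refine Finset.sum_congr rfl fun d hd => ?_
    rw [Finset.mem_Ico] at hd
    have g1 : (δ₀ - w) * N ≤ d := Nat.le_of_ceil_le hd.1
    have g2 : (d : ℝ) < (δ₀ + w) * N := Nat.lt_of_lt_floor hd.2
    have g3 : |(d : ℝ) / N - δ₀| < ρ := by
      have g4 : δ₀ - w ≤ (d : ℝ) / N := by rwa [le_div_iff₀ hN]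
      have g5 : (d : ℝ) / N < δ₀ + w := by rwa [div_lt_iff₀ hN]
      rw [abs_lt]
      constructor <;> linarith
    obtain ⟨a1, a2, a3⟩ := h1 d g3
    have a4 := a3 ⟨_, hχ N⟩
    simp only at a4
    rw [a1 _ (hψ N), a1 _ (hψ' N), a2, a4,
      ← Complex.exp_add, ← Complex.exp_add, ← Complex.exp_nat_mul, ← Complex.exp_sub]
    congr 1
    push_cast
    ring
  set T : ℕ → ℂ := fun N => kh N (ψ N) (ψ' N) (χ N) - W N with hT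
  have hTb : ∀ᶠ N : ℕ in atTop, ‖T N‖ ≤ N * Real.exp (N * ((QQ3 φ φ' η z₀).re - κ / 2)) := by
    have hbig : ∀ᶠ N : ℕ in atTop, 2 / w ≤ (N : ℝ) :=
      tendsto_natCast_atTop_atTop.eventually_ge_atTop _
    filter_upwards [hWeq, hIsub, hF, hbig, eventually_gt_atTop 0] with N h1 hIs h2 h3 h4
    have hN : (0 : ℝ) < N := by exact_mod_cast h4
    have hNw : 1 / (N : ℝ) ≤ w / 2 := by
      rw [div_le_iff₀ hw] at h3
      rw [div_le_iff₀ hN]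
      linarith
    have e1 : T N = ∑ d ∈ range ((N - 1) / 2 + 1) \ Ico (⌈(δ₀ - w) * N⌉₊) (⌊(δ₀ + w) * N⌋₊),
        Rp N d (ψ N) * Rp N d (ψ' N) * Tg N d (χ N) / (Sd N d : ℂ) ^ 2 := by
      rw [hT]
      simp only
      rw [h1, kh, ← Finset.sum_sdiff hIs]
      ring
    rw [e1]
    have e2 : ∀ d ∈ range ((N - 1) / 2 + 1) \ Ico (⌈(δ₀ - w) * N⌉₊) (⌊(δ₀ + w) * N⌋₊),
        ‖Rp N d (ψ N) * Rp N d (ψ' N) * Tg N d (χ N) / (Sd N d : ℂ) ^ 2‖ ≤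
          Real.exp (N * ((QQ3 φ φ' η z₀).re - κ / 2)) := by
      intro d hd
      rw [Finset.mem_sdiff, Finset.mem_range, Finset.mem_Ico, not_and_or, not_le, not_lt] at hd
      obtain ⟨hdN, hd⟩ := hd
      have g1 : w / 2 ≤ |(d : ℝ) / N - δ₀| := by
        rcases hd with hd | hd
        · have g2 : (d : ℝ) < (δ₀ - w) * N := Nat.lt_ceil.1 hd
          have g3 : (d : ℝ) / N < δ₀ - w := by rwa [div_lt_iff₀ hN]
          rw [le_abs]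
          right
          linarith
        · have g2 : (δ₀ + w) * N < (d : ℝ) + 1 :=
            (Nat.lt_floor_add_one _).trans_le (by exact_mod_cast Nat.succ_le_succ hd)
          have g3 : δ₀ + w < (d : ℝ) / N + 1 / N := by
            rw [← add_div, lt_div_iff₀ hN]
            exact g2
          rw [le_abs]
          left
          linarith
      refine (h2 d (by omega) g1 _ _ _ (hy N).1 (hy N).2 (hy' N).1 (hy' N).2 (hyχ N).1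
        (hyχ N).2).trans (Real.exp_le_exp.2 ?_)
      refine mul_le_mul_of_nonneg_left ?_ hN.le
      linarith
    refine (norm_sum_le _ _).trans ((Finset.sum_le_card_nsmul _ _ _ e2).trans ?_)
    rw [nsmul_eq_mul]
    have e3 : ((range ((N - 1) / 2 + 1) \
        Ico (⌈(δ₀ - w) * N⌉₊) (⌊(δ₀ + w) * N⌋₊)).card : ℝ) ≤ N := by
      have := Finset.card_le_card (Finset.sdiff_subset
        (s := range ((N - 1) / 2 + 1)) (t := Ico (⌈(δ₀ - w) * N⌉₊) (⌊(δ₀ + w) * N⌋₊)))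
      rw [Finset.card_range] at this
      have h5 : (N - 1) / 2 + 1 ≤ N := by omega
      exact_mod_cast this.trans h5
    gcongr
  have hfin := absorb hL0 (by positivity : 0 < κ / 2) hwin hTb
  refine hfin.congr fun N => ?_
  rw [hT]
  simp only
  rw [add_sub_cancel]

end Pool.Agent.Y967.CBY
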